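import Pool.Agent.MP_c481b3_nt.H40.SpecA

/-! Passing from residue classes to boxes. -/

set_option autoImplicit false

namespace Pool.Agent.MP_c481b3_nt.H40

open NumberField Filter

namespace BoxA

variable {K : Type} [Field K] [NumberField K]

variable (K) in
/-- integers of bounded size -/
def B (t : ℝ) : Set (𝓞 K) := {x | house (x : K) ≤ t}

lemma box_eq (T : ℝ × ℝ) : Box K T = B K T.1 ×ˢ B K T.2 := rfl

lemma fin_B (t : ℝ) : (B K t).Finite := by
  refine Set.Finite.of_finite_image (f := fun x : 𝓞 K => (x : K)) ?_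
    fun x _ y _ h => RingOfIntegers.coe_injective h
  refine (Embeddings.finite_of_norm_le K ℂ t).subset ?_
  rintro _ ⟨x, hx, rfl⟩
  exact ⟨x.isIntegral_coe, fun φ => (norm_embedding_le_house _ φ).trans hx⟩

lemma house_sub_le (x y : 𝓞 K) :
    house ((x - y : 𝓞 K) : K) ≤ house (x : K) + house (y : K) := by
  have : ((x - y : 𝓞 K) : K) = (x : K) - (y : K) := map_sub (algebraMap (𝓞 K) K) x y
  rw [this]
  simp only [house, map_sub]
  exact norm_sub_le _ _

lemma doubling : ∃ c : ℝ, ∀ t, c ≤ t →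
    (B K (2 * t)).ncard ≤ 4 ^ Module.finrank ℚ K * (B K t).ncard := by
  classical
  let I : Ideal (𝓞 K) := Ideal.span {((4 : ℕ) : 𝓞 K)}
  have hc : Nat.card (𝓞 K ⧸ I) = 4 ^ Module.finrank ℚ K := by
    rw [← RingOfIntegers.rank, ← Ideal.absNorm_span_natCast, Ideal.absNorm_apply,
      Submodule.cardQuot_apply]
  have hf : Finite (𝓞 K ⧸ I) := Nat.finite_of_card_ne_zero (by rw [hc]; positivity)
  choose r hr using Ideal.Quotient.mk_surjective (I := I)
  obtain ⟨c, hcr⟩ := (Set.finite_range fun z => house (r z : K)).bddAbove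
  have hy : ∀ x : 𝓞 K, ∃ y, y * ((4 : ℕ) : 𝓞 K) = x - r (Ideal.Quotient.mk I x) := fun x =>
    Ideal.mem_span_singleton'.mp (Ideal.Quotient.eq.mp (hr _).symm)
  choose y hy using hy
  refine ⟨c, fun t ht => ?_⟩
  have h := Set.ncard_le_ncard_of_injOn (s := B K (2 * t)) (t := Set.univ ×ˢ B K t)
    (fun x => (Ideal.Quotient.mk I x, y x)) ?_ ?_ (Set.finite_univ.prod (fin_B t))
  · rwa [Set.ncard_prod, Set.ncard_univ, hc] at h
  · intro x hx
    refine ⟨trivial, ?_⟩
    have h1 := house_sub_le x (r (Ideal.Quotient.mk I x))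
    have h2 : house (r (Ideal.Quotient.mk I x) : K) ≤ c := hcr ⟨_, rfl⟩
    have h3 : ((y x * ((4 : ℕ) : 𝓞 K) : 𝓞 K) : K) = ((4 : ℕ) : K) * (y x : K) := by
      rw [mul_comm]
      exact (map_mul (algebraMap (𝓞 K) K) _ _).trans (by rw [map_natCast])
    rw [← hy, h3, house_nat_mul] at h1
    have h4 : house (x : K) ≤ 2 * t := hx
    have h5 := house_nonneg (y x : K)
    have h6 := house_nonneg (x : K)
    show house (y x : K) ≤ t
    push_cast at h1
    linarith
  · intro x _ x' _ h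
    obtain ⟨h1, h2⟩ := Prod.mk.inj h
    have h3 := hy x
    rw [h1, h2, hy x'] at h3
    exact (sub_left_inj.mp h3).symm

end BoxA

open BoxA in
theorem box : BoxStmt := by
  intro K _ _
  have hfin : ∀ T, (Box K T).Finite := fun T => (fin_B _).prod (fin_B _)
  refine ⟨hfin, fun T h1 h2 => ⟨0, ?_⟩, fun G _ s E η hG hη => ?_⟩
  · constructor
    · simpa [house] using h1
    · simpa [house] using h2
  classical
  obtain ⟨c, hc⟩ := doubling (K := K)
  obtain ⟨c₁, hc₁⟩ := (Set.finite_range fun g => house ((s g).1 : K)).bddAbove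
  obtain ⟨c₂, hc₂⟩ := (Set.finite_range fun g => house ((s g).2 : K)).bddAbove
  have hcard : (0 : ℝ) < Fintype.card G := by exact_mod_cast Fintype.card_pos
  have hη0 : 0 ≤ η := by
    have := (Nat.cast_nonneg _).trans (hη 0)
    exact nonneg_of_mul_nonneg_left this hcard
  filter_upwards [(eventually_ge_atTop (max c c₁)).prod_mk (eventually_ge_atTop (max c c₂))]
    with T hT
  obtain ⟨hT1, hT2⟩ := hT
  rw [max_le_iff] at hT1 hT2
  let B2 := (hfin (2 * T.1, 2 * T.2)).toFinset
  have h1 : (B2.card : ℝ) ≤ 16 ^ Module.finrank ℚ K * (Box K T).ncard := by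
    rw [← Set.ncard_eq_toFinset_card _ (hfin _), box_eq, box_eq, Set.ncard_prod, Set.ncard_prod]
    have := Nat.mul_le_mul (hc _ hT1.1) (hc _ hT2.1)
    rw [mul_mul_mul_comm, ← mul_pow] at this
    exact_mod_cast this
  have h2 : ∀ g, (Box K T ∩ E).ncard ≤ (B2.filter fun x => x + s g ∈ E).card := fun g => by
    rw [← Set.ncard_coe_finset]
    refine Set.ncard_le_ncard_of_injOn (fun y => y - s g) ?_ (fun y _ y' _ h => sub_left_inj.mp h)
      (Finset.finite_toSet _)
    rintro y ⟨⟨hy1, hy2⟩, hy⟩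
    simp only [Finset.coe_filter, Set.mem_ofPred_eq, sub_add_cancel, B2, Set.Finite.mem_toFinset]
    refine ⟨⟨?_, ?_⟩, hy⟩
    · have := house_sub_le y.1 (s g).1
      have h3 : house ((s g).1 : K) ≤ c₁ := hc₁ ⟨g, rfl⟩
      show house ((y.1 - (s g).1 : 𝓞 K) : K) ≤ 2 * T.1
      linarith [hT1.2]
    · have := house_sub_le y.2 (s g).2
      have h3 : house ((s g).2 : K) ≤ c₂ := hc₂ ⟨g, rfl⟩
      show house ((y.2 - (s g).2 : 𝓞 K) : K) ≤ 2 * T.2
      linarith [hT2.2]
  have h3 : ∑ g, (B2.filter fun x => x + s g ∈ E).card =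
      ∑ x ∈ B2, {g | x + s g ∈ E}.ncard := by
    simp only [Finset.card_filter]
    rw [Finset.sum_comm]
    refine Finset.sum_congr rfl fun x _ => ?_
    rw [← Finset.card_filter, ← Set.ncard_coe_finset]
    simp
  have h4 : ((Box K T ∩ E).ncard : ℝ) * Fintype.card G ≤ B2.card * (η * Fintype.card G) := by
    have h5 : (Box K T ∩ E).ncard * Fintype.card G ≤ ∑ x ∈ B2, {g | x + s g ∈ E}.ncard := by
      rw [← h3, mul_comm, ← smul_eq_mul, ← Finset.card_univ, ← Finset.sum_const]
      exact Finset.sum_le_sum fun g _ => h2 g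
    have h6 : ((∑ x ∈ B2, {g | x + s g ∈ E}.ncard : ℕ) : ℝ) ≤
        B2.card * (η * Fintype.card G) := by
      rw [← nsmul_eq_mul, ← Finset.sum_const, Nat.cast_sum]
      exact Finset.sum_le_sum fun x _ => hη x
    exact le_trans (by exact_mod_cast h5) h6
  rw [← mul_assoc] at h4
  have h7 := le_of_mul_le_mul_right h4 hcard
  calc ((Box K T ∩ E).ncard : ℝ) ≤ B2.card * η := h7
    _ ≤ 16 ^ Module.finrank ℚ K * (Box K T).ncard * η := mul_le_mul_of_nonneg_right h1 hη0
    _ = _ := by ring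

end Pool.Agent.MP_c481b3_nt.H40
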