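import Pool.Agent.MP_c481b3_nt.H40.SpecA

/-! Independence of local conditions at distinct primes. -/

set_option autoImplicit false

namespace Pool.Agent.MP_c481b3_nt.H40

open NumberField

namespace CrtA

theorem count {ι : Type} [Fintype ι] [DecidableEq ι] {κ : ι → Type} [∀ i, Fintype (κ i)]
    [∀ i, DecidableEq (κ i)] {A : (i : ι) → κ i → Type} [∀ i j, Fintype (A i j)]
    [∀ i j, Nonempty (A i j)] (L : (i : ι) → (j : κ i) → Set (A i j)) (δ : ι → ℝ)
    (h : ∀ i, δ i ≤ ∏ j, ((L i j).ncard : ℝ) / (Fintype.card (A i j) : ℝ)) :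
    ({g : (i : ι) → (j : κ i) → A i j | ∀ i, ∃ j, g i j ∉ L i j}.ncard : ℝ) ≤
      Real.exp (-∑ i, δ i) * Fintype.card ((i : ι) → (j : κ i) → A i j) := by
  classical
  have e : {g : (i : ι) → (j : κ i) → A i j | ∀ i, ∃ j, g i j ∉ L i j} =
      (Fintype.piFinset fun i => (Fintype.piFinset fun j => (L i j).toFinset)ᶜ : Finset _) := by
    ext g
    simp
  rw [e, Set.ncard_coe_finset, Fintype.card_piFinset, Fintype.card_pi, ← Finset.sum_neg_distrib,
    Real.exp_sum, Nat.cast_prod, Nat.cast_prod, ← Finset.prod_mul_distrib]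
  refine Finset.prod_le_prod (fun _ _ => Nat.cast_nonneg _) fun i _ => ?_
  have h0 : (0 : ℝ) < ∏ j, (Fintype.card (A i j) : ℝ) :=
    Finset.prod_pos fun j _ => by exact_mod_cast Fintype.card_pos
  have h1 := h i
  rw [Finset.prod_div_distrib, le_div_iff₀ h0] at h1
  rw [Finset.card_compl, Nat.cast_sub (Finset.card_le_univ _), Fintype.card_piFinset,
    Fintype.card_pi]
  simp only [← Set.ncard_eq_toFinset_card', Nat.cast_prod]
  nlinarith [Real.add_one_le_exp (-δ i)]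

end CrtA

theorem crt : CrtStmt := by
  intro K _ _ Q pr L δ hmax hdis hδ
  classical
  have hfin : ∀ (q : Q) (P : pr q), Finite (𝓞 K ⧸ P.1) := fun q P =>
    Ideal.finiteQuotientOfFreeOfNeBot _ (Ring.ne_bot_of_isMaximal_of_not_isField
      (hmax q q.2 P P.2) (RingOfIntegers.not_isField K))
  let _ : ∀ (q : Q) (P : pr q), Fintype ((𝓞 K ⧸ P.1) × (𝓞 K ⧸ P.1)) := fun q P =>
    haveI := hfin q P
    Fintype.ofFinite _
  have hco : Pairwise (Function.onFun IsCoprime fun i : (q : Q) × pr q => i.2.1) := by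
    rintro ⟨q, P⟩ ⟨q', P'⟩ hne
    have := hmax q q.2 P P.2
    have := hmax q' q'.2 P' P'.2
    refine Ideal.isCoprime_of_isMaximal fun h : P.1 = P'.1 => ?_
    by_cases hq : q = q'
    · subst hq
      exact hne (by rw [Subtype.ext h])
    · exact Finset.disjoint_left.1 (hdis q q.2 q' q'.2 fun h' => hq (Subtype.ext h')) P.2
        (h ▸ P'.2)
  have hs : ∀ g : (q : Q) → (P : pr q) → (𝓞 K ⧸ P.1) × (𝓞 K ⧸ P.1), ∃ y : 𝓞 K × 𝓞 K,
      ∀ (q : Q) (P : pr q), rd P.1 y = g q P := fun g => by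
    obtain ⟨a, ha⟩ := Ideal.pi_quotient_surjective hco fun i => (g i.1 i.2).1
    obtain ⟨b, hb⟩ := Ideal.pi_quotient_surjective hco fun i => (g i.1 i.2).2
    exact ⟨(a, b), fun q P => Prod.ext (ha ⟨q, P⟩) (hb ⟨q, P⟩)⟩
  choose s hs using hs
  refine ⟨_, inferInstance, s, inferInstance, fun x => ?_⟩
  have h1 := CrtA.count (fun (q : Q) (P : pr q) => L q P.1) (fun q => δ q) fun q => by
    refine (hδ q q.2).trans_eq ?_
    rw [← Finset.prod_coe_sort]
    refine Finset.prod_congr rfl fun P _ => ?_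
    rw [Fintype.card_eq_nat_card, Nat.card_prod, Ideal.absNorm_apply, Submodule.cardQuot_apply,
      Nat.cast_mul, sq]
  rw [Finset.sum_coe_sort Q δ] at h1
  refine le_trans (Nat.cast_le.2 ?_) h1
  refine Set.ncard_le_ncard_of_injOn (fun g => (fun (q : Q) (P : pr q) => rd P.1 x) + g)
    (fun g hg q => ?_) (add_right_injective _).injOn (Set.toFinite _)
  obtain ⟨P, hP, h2⟩ := hg q q.2
  refine ⟨⟨P, hP⟩, fun h3 => h2 ?_⟩
  have h4 : rd P (x + s g) = rd P x + g q ⟨P, hP⟩ := by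
    rw [← hs g q ⟨P, hP⟩]
    rfl
  rwa [h4]

end Pool.Agent.MP_c481b3_nt.H40
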