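import Pool.Agent.MP_c481b3_nt.H40.SpecA
import Pool.Agent.MP_c481b3_nt.H28.DensK

/-! Many primes of degree one. -/

set_option autoImplicit false

namespace Pool.Agent.MP_c481b3_nt.H40

open NumberField Filter Topology

namespace DivAux

theorem above (K : Type) [Field K] [NumberField K] (q : ℕ) (hq : q.Prime) :
    ∃ S : Finset (Ideal (𝓞 K)), S.card ≤ Module.finrank ℚ K ∧
      ∀ P, P ∈ S ↔ P.IsMaximal ∧ (q : 𝓞 K) ∈ P := by
  have hp : Prime (q : ℤ) := Nat.prime_iff_prime_int.1 hq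
  have h0 : Ideal.span {(q : ℤ)} ≠ ⊥ := by simpa using hq.ne_zero
  have : (Ideal.span {(q : ℤ)}).IsMaximal :=
    ((Ideal.span_singleton_prime hp.ne_zero).2 hp).isMaximal h0
  refine ⟨IsDedekindDomain.primesOverFinset (Ideal.span {(q : ℤ)}) (𝓞 K),
    Ideal.card_primesOverFinset_le_finrank (𝓞 K) ℚ K h0, fun P => ?_⟩
  rw [IsDedekindDomain.mem_primesOverFinset_iff h0]
  constructor
  · rintro ⟨h1, h2⟩
    have h3 : (q : 𝓞 K) ∈ P := by simpa using (Ideal.liesOver_span_iff h1.ne_top hp).1 h2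
    refine ⟨h1.isMaximal fun h => ?_, h3⟩
    rw [h, Ideal.mem_bot] at h3
    exact hq.ne_zero (by exact_mod_cast h3)
  · rintro ⟨h1, h2⟩
    exact ⟨h1.isPrime, (Ideal.liesOver_span_iff h1.ne_top hp).2 (by simpa using h2)⟩

attribute [local instance] FractionRing.liftAlgebra in
theorem unram (K : Type) [Field K] [NumberField K] {q : ℕ} (hq : q.Prime) (P : Ideal (𝓞 K))
    (hP : Ideal.absNorm P = q) (hd : (discr K).natAbs < q) : (q : 𝓞 K) ∉ P ^ 2 := by
  intro h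
  have hp : Prime (q : ℤ) := Nat.prime_iff_prime_int.1 hq
  have h0 : Ideal.span {(q : ℤ)} ≠ ⊥ := by simpa using hq.ne_zero
  have : (Ideal.span {(q : ℤ)}).IsMaximal :=
    ((Ideal.span_singleton_prime hp.ne_zero).2 hp).isMaximal h0
  have h1 : P ^ 2 ∣ (Ideal.span {(q : ℤ)}).map (algebraMap ℤ (𝓞 K)) := by
    rw [Ideal.map_span, Ideal.dvd_iff_le, Ideal.span_le]
    simpa using h
  have h2 := pow_sub_one_dvd_differentIdeal ℤ P 2 h0 h1
  have h3 := map_dvd Ideal.absNorm h2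
  rw [absNorm_differentIdeal K] at h3
  have h4 := Nat.le_of_dvd (Int.natAbs_pos.2 (discr_ne_zero K)) h3
  simp only [Nat.add_one_sub_one, pow_one, hP] at h4
  omega

theorem down (K L : Type) [Field K] [NumberField K] [Field L] [NumberField L] [Algebra K L]
    (ζ : 𝓞 L) (hζ : ζ ^ 8 - ζ ^ 4 + 1 = 0) (P : Ideal (𝓞 L)) (hP : P.IsMaximal) {q : ℕ}
    (hq : q.Prime) (hN : Ideal.absNorm P = q) (h2 : 2 < q) :
    q % 4 = 1 ∧ ∃ P₀ : Ideal (𝓞 K), P₀.IsMaximal ∧ Ideal.absNorm P₀ = q ∧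
      ∃ z : 𝓞 K ⧸ P₀, z ^ 8 - z ^ 4 + 1 = 0 := by
  set P₀ : Ideal (𝓞 K) := P.comap (algebraMap (𝓞 K) (𝓞 L)) with hP₀
  have hm : P₀.IsMaximal := Ideal.isMaximal_comap_of_isIntegral_of_isMaximal P
  let f : 𝓞 K ⧸ P₀ →+* 𝓞 L ⧸ P := Ideal.quotientMap P (algebraMap (𝓞 K) (𝓞 L)) le_rfl
  have hf : Function.Injective f := Ideal.quotientMap_injective
  have hc : Nat.card (𝓞 L ⧸ P) = q := by
    rw [← hN, Ideal.absNorm_apply, Submodule.cardQuot_apply]
  have : Finite (𝓞 L ⧸ P) := Nat.finite_of_card_ne_zero (hc ▸ hq.ne_zero)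
  have : Finite (𝓞 K ⧸ P₀) := Finite.of_injective f hf
  have hd : Nat.card (𝓞 K ⧸ P₀) ∣ q :=
    hc ▸ AddSubgroup.card_dvd_of_injective f.toAddMonoidHom hf
  let : Field (𝓞 K ⧸ P₀) := Ideal.Quotient.field P₀
  have hc₀ : Nat.card (𝓞 K ⧸ P₀) = q :=
    ((Nat.dvd_prime hq).1 hd).resolve_left Finite.one_lt_card.ne'
  have hb : Function.Bijective f := (Nat.bijective_iff_injective_and_card f).2 ⟨hf, hc₀.trans hc.symm⟩
  obtain ⟨z, hz⟩ := hb.2 (Ideal.Quotient.mk P ζ)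
  have hz0 : z ^ 8 - z ^ 4 + 1 = 0 := by
    apply hf
    rw [map_add, map_sub, map_pow, map_pow, hz, map_one, map_zero]
    simpa using congrArg (Ideal.Quotient.mk P) hζ
  refine ⟨?_, P₀, hm, by rw [Ideal.absNorm_apply, Submodule.cardQuot_apply, hc₀], z, hz0⟩
  have := Fintype.ofFinite (𝓞 K ⧸ P₀)
  have h3 : IsSquare (-1 : 𝓞 K ⧸ P₀) := ⟨z ^ 6, by linear_combination (-(z ^ 4) - 1) * hz0⟩
  have h4 := FiniteField.isSquare_neg_one_iff.1 h3
  rw [← Nat.card_eq_fintype_card, hc₀] at h4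
  have h5 := hq.eq_two_or_odd
  omega

theorem many (L : Type) [Field L] [NumberField L] (C : ℝ) (M : ℕ) :
    ∃ Q : Finset ℕ, C ≤ ∑ q ∈ Q, 1 / (q : ℝ) ∧ ∀ q ∈ Q, q.Prime ∧ M < q ∧
      ∃ P : Ideal (𝓞 L), P.IsMaximal ∧ Ideal.absNorm P = q := by
  classical
  obtain ⟨C₀, hC⟩ := H28.densK L
  set n := Module.finrank ℚ L with hn
  have hn0 : (0 : ℝ) < n := by exact_mod_cast Module.finrank_pos
  have ht : Tendsto (fun x : ℝ => -Real.log (x - 1)) (𝓝[>] 1) atTop := by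
    refine tendsto_neg_atBot_atTop.comp (Real.tendsto_log_nhdsGT_zero.comp ?_)
    refine tendsto_nhdsWithin_iff.2 ⟨?_, ?_⟩
    · have : Tendsto (fun x : ℝ => x - 1) (𝓝 1) (𝓝 (1 - 1)) := tendsto_id.sub_const 1
      rw [sub_self] at this
      exact this.mono_left nhdsWithin_le_nhds
    · filter_upwards [self_mem_nhdsWithin] with x hx
      exact sub_pos.2 (Set.mem_Ioi.1 hx)
  obtain ⟨x, ⟨S, hS, h1⟩, h2, h3⟩ := (hC.and ((ht.eventually_ge_atTop
    (C₀ + n * (C + (M + 1)))).and self_mem_nhdsWithin)).exists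
  have hx : (1 : ℝ) < x := h3
  set T := S.image Ideal.absNorm with hT
  have hTp : ∀ q ∈ T, q.Prime ∧ ∃ P : Ideal (𝓞 L), P.IsMaximal ∧ Ideal.absNorm P = q := by
    intro q hq
    obtain ⟨P, hP, rfl⟩ := Finset.mem_image.1 hq
    exact ⟨(hS P hP).2, P, (hS P hP).1, rfl⟩
  refine ⟨T.filter (M < ·), ?_, fun q hq => ?_⟩
  swap
  · rw [Finset.mem_filter] at hq
    exact ⟨(hTp q hq.1).1, hq.2, (hTp q hq.1).2⟩
  have h4 : ∑ P ∈ S, (Ideal.absNorm P : ℝ) ^ (-x) ≤ ∑ P ∈ S, 1 / (Ideal.absNorm P : ℝ) := by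
    refine Finset.sum_le_sum fun P hP => ?_
    have : (1 : ℝ) ≤ Ideal.absNorm P := by exact_mod_cast (hS P hP).2.one_le
    rw [one_div, ← Real.rpow_neg_one]
    exact Real.rpow_le_rpow_of_exponent_le this (by linarith)
  have h5 : ∑ P ∈ S, 1 / (Ideal.absNorm P : ℝ) ≤ n * ∑ q ∈ T, 1 / (q : ℝ) := by
    rw [← Finset.sum_fiberwise_of_maps_to (g := Ideal.absNorm) (t := T)
      (fun P hP => Finset.mem_image_of_mem _ hP), Finset.mul_sum]
    refine Finset.sum_le_sum fun q hq => ?_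
    obtain ⟨R, hR, hR'⟩ := above L q (hTp q hq).1
    rw [Finset.sum_congr rfl (g := fun _ => 1 / (q : ℝ))
      (fun P hP => by rw [(Finset.mem_filter.1 hP).2]), Finset.sum_const, nsmul_eq_mul]
    refine mul_le_mul_of_nonneg_right ?_ (by positivity)
    refine Nat.cast_le.2 ((Finset.card_le_card fun P hP => ?_).trans hR)
    rw [Finset.mem_filter] at hP
    exact (hR' P).2 ⟨(hS P hP.1).1, hP.2 ▸ Ideal.absNorm_mem P⟩
  have h6 : ∑ q ∈ T.filter (fun q => ¬M < q), 1 / (q : ℝ) ≤ M + 1 := by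
    have h7 : (T.filter fun q => ¬M < q).card ≤ M + 1 := by
      rw [← Finset.card_range (M + 1)]
      refine Finset.card_le_card fun q hq => Finset.mem_range.2 ?_
      have := (Finset.mem_filter.1 hq).2
      omega
    refine (Finset.sum_le_card_nsmul _ _ 1 fun q hq => ?_).trans ?_
    · have : (1 : ℝ) ≤ q := by exact_mod_cast (hTp q (Finset.mem_filter.1 hq).1).1.one_le
      rw [div_le_one (by linarith)]
      exact this
    · rw [nsmul_eq_mul, mul_one]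
      exact_mod_cast h7
  rw [← Finset.sum_filter_add_sum_filter_not T (M < ·)] at h5
  have h8 : n * (C + (M + 1)) ≤ n * (∑ q ∈ T.filter (M < ·), 1 / (q : ℝ) + (M + 1)) := by
    nlinarith
  linarith [le_of_mul_le_mul_left h8 hn0]

theorem root (K : Type) [Field K] [NumberField K] :
    ∃ ζ : 𝓞 (CyclotomicField 24 K), ζ ^ 8 - ζ ^ 4 + 1 = 0 := by
  have hz := IsCyclotomicExtension.zeta_spec 24 K (CyclotomicField 24 K)
  set z := IsCyclotomicExtension.zeta 24 K (CyclotomicField 24 K)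
  have h1 : z ^ 12 = -1 := (hz.pow (by norm_num) (by norm_num : 24 = 12 * 2)).eq_neg_one_of_two_right
  have h2 : z ^ 4 + 1 ≠ 0 := fun h => hz.pow_ne_one_of_pos_of_lt (l := 8) (by norm_num)
    (by norm_num) (by linear_combination (z ^ 4 - 1) * h)
  have h3 : z ^ 8 - z ^ 4 + 1 = 0 :=
    mul_left_cancel₀ h2 (by linear_combination h1)
  refine ⟨⟨z, hz.isIntegral (by norm_num)⟩, ?_⟩
  apply RingOfIntegers.ext
  simpa using h3

end DivAux

open DivAux in
theorem div : DivStmt := by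
  intro K _ _
  refine ⟨above K, fun C M => ?_⟩
  obtain ⟨ζ, hζ⟩ := root K
  obtain ⟨Q, h1, h2⟩ := many (CyclotomicField 24 K) C (M + (discr K).natAbs + 2)
  refine ⟨Q, h1, fun q hq => ?_⟩
  obtain ⟨h3, h4, P, h5, h6⟩ := h2 q hq
  obtain ⟨h7, P₀, h8, h9, z, hz⟩ := down K _ ζ hζ P h5 h3 h6 (by omega)
  exact ⟨h3, by omega, h7, P₀, h8, h9, unram K h3 P₀ h9 (by omega), z, hz⟩

end Pool.Agent.MP_c481b3_nt.H40
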