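import Pool.Agent.MP_c481b3_nt.H40.SpecA

/-! An element with valuation one at exactly one prime of degree one generates the field. -/

set_option autoImplicit false

namespace Pool.Agent.MP_c481b3_nt.H40

open NumberField

namespace GenAux

variable {K : Type} [Field K] [NumberField K]

theorem exists_prime {q : ℕ} (hq : q.Prime) {I : Ideal (𝓞 K)} (h : q ∣ Ideal.absNorm I) :
    ∃ P : Ideal (𝓞 K), P.IsMaximal ∧ (q : 𝓞 K) ∈ P ∧ P ∣ I := by
  obtain ⟨P, h1, h2, h3⟩ := Ideal.exists_isMaximal_dvd_of_dvd_absNorm' hq I h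
  refine ⟨P, h1, ?_, h3⟩
  have : (q : ℤ) ∈ P.under ℤ := h2 ▸ Ideal.mem_span_singleton_self _
  simpa [Ideal.under_def, Ideal.mem_comap] using this

theorem key {x b : 𝓞 K} {q : ℕ} {P₀ : Ideal (𝓞 K)} (hq : q.Prime) (hN : Ideal.absNorm P₀ = q)
    (hx : x ∈ P₀) (hx2 : x ∉ P₀ ^ 2) (hb : b ∉ P₀)
    (h : ∀ P : Ideal (𝓞 K), P.IsMaximal → (q : 𝓞 K) ∈ P → P ≠ P₀ → b ∉ P ∧ x ∉ P)
    (L : IntermediateField ℚ K) (hL : (x : K) / (b : K) ∈ L) : L = ⊤ := by
  have := Fact.mk hq
  obtain ⟨I, hI⟩ : P₀ ∣ Ideal.span {x} := Ideal.dvd_span_singleton.2 hx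
  have h1 : ¬q ∣ Ideal.absNorm I := fun c => by
    obtain ⟨P, p1, p2, p3⟩ := exists_prime hq c
    by_cases e : P = P₀
    · subst e
      refine hx2 (Ideal.dvd_span_singleton.1 ?_)
      rw [hI, sq]
      exact mul_dvd_mul_left _ p3
    · exact (h P p1 p2 e).2 (Ideal.dvd_span_singleton.1 (hI ▸ p3.mul_left _))
  have h2 : ¬q ∣ Ideal.absNorm (Ideal.span {b}) := fun c => by
    obtain ⟨P, p1, p2, p3⟩ := exists_prime hq c
    have p4 := Ideal.dvd_span_singleton.1 p3
    by_cases e : P = P₀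
    · exact hb (e ▸ p4)
    · exact (h P p1 p2 e).1 p4
  have h3 : (Algebra.norm ℤ x).natAbs = q * Ideal.absNorm I := by
    rw [← Ideal.absNorm_span_singleton, hI, map_mul, hN]
  rw [Ideal.absNorm_span_singleton] at h2
  have hI0 : Ideal.absNorm I ≠ 0 := fun e => h1 (e ▸ dvd_zero q)
  have v1 : padicValRat q (Algebra.norm ℤ x : ℤ) = 1 := by
    rw [padicValRat.of_int, padicValInt, h3, padicValNat.mul hq.ne_zero hI0,
      padicValNat.eq_zero_of_not_dvd h1, padicValNat_self]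
    rfl
  have v2 : padicValRat q (Algebra.norm ℤ b : ℤ) = 0 := by
    rw [padicValRat.of_int, padicValInt, padicValNat.eq_zero_of_not_dvd h2]
    rfl
  have b0 : (b : K) ≠ 0 := fun e => hb (by
    rw [show b = 0 from RingOfIntegers.coe_eq_zero_iff.1 e]
    exact P₀.zero_mem)
  have n0 : ((Algebra.norm ℤ x : ℤ) : ℚ) ≠ 0 := fun e => by
    rw [e] at v1
    simp at v1
  have e1 : Algebra.norm ℚ ((x : K) / (b : K)) =
      Algebra.norm ℚ (⟨_, hL⟩ : L) ^ Module.finrank L K := by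
    rw [← Algebra.norm_norm (S := L), ← map_pow, ← Algebra.norm_algebraMap]
    rfl
  have e2 : ((Algebra.norm ℤ x : ℤ) : ℚ) =
      Algebra.norm ℚ (⟨_, hL⟩ : L) ^ Module.finrank L K * (Algebra.norm ℤ b : ℤ) := by
    rw [← e1, Algebra.coe_norm_int, Algebra.coe_norm_int, ← map_mul, div_mul_cancel₀ _ b0]
  rw [e2] at v1 n0
  rw [padicValRat.mul (left_ne_zero_of_mul n0) (right_ne_zero_of_mul n0), v2, add_zero,
    padicValRat.pow] at v1
  have d : Module.finrank L K = 1 := by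
    have := Int.eq_one_of_mul_eq_one_right (Int.natCast_nonneg _) v1
    exact_mod_cast this
  exact IntermediateField.finrank_eq_one_iff_eq_top.1 d

end GenAux

theorem gen : GenStmt := by
  intro K _ _ a b q P₀ hq hP hN hq2 hx hb h
  have q0 : (q : 𝓞 K) ∈ P₀ := hN ▸ Ideal.absNorm_mem P₀
  have b0 : (b : K) ≠ 0 := fun e => hb (by
    rw [show b = 0 from RingOfIntegers.coe_eq_zero_iff.1 e]
    exact P₀.zero_mem)
  have hm : ∀ n : ℕ, ((4 * a + n * b : 𝓞 K) : K) / (b : K) ∈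
      IntermediateField.adjoin ℚ {(a : K) / (b : K)} := fun n => by
    have : ((4 * a + n * b : 𝓞 K) : K) / (b : K) = (4 : ℕ) * ((a : K) / (b : K)) + n := by
      rw [RingOfIntegers.coe_eq_algebraMap, map_add, map_mul, map_mul, map_natCast, map_ofNat,
        ← RingOfIntegers.coe_eq_algebraMap, ← RingOfIntegers.coe_eq_algebraMap]
      push_cast
      field_simp
    rw [this]
    exact add_mem (mul_mem (natCast_mem _ _) (IntermediateField.mem_adjoin_simple_self _ _))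
      (natCast_mem _ _)
  by_cases c : 4 * a + 27 * b ∈ P₀ ^ 2
  · have e : 4 * a + ((27 + q : ℕ) : 𝓞 K) * b = 4 * a + 27 * b + q * b := by
      push_cast
      ring
    refine GenAux.key hq hN ?_ ?_ hb (fun P p1 p2 p3 => ⟨(h P p1 p2 p3).1, ?_⟩) _ (hm (27 + q)) <;>
      rw [e]
    · exact add_mem hx (P₀.mul_mem_right _ q0)
    · intro c'
      have c2 : (q : 𝓞 K) * b ∈ P₀ ^ 2 := (Submodule.add_mem_iff_right _ c).1 c'
      obtain ⟨u, w, hw, e1⟩ := hP.exists_inv hb
      apply hq2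
      have : (q : 𝓞 K) = u * (q * b) + q * w := by linear_combination (-q : 𝓞 K) * e1
      rw [this]
      exact add_mem (Ideal.mul_mem_left _ _ c2) (by rw [sq]; exact Ideal.mul_mem_mul q0 hw)
    · exact fun c' => (h P p1 p2 p3).2 ((Submodule.add_mem_iff_left _ (P.mul_mem_right _ p2)).1 c')
  · exact GenAux.key hq hN hx c hb h _ (by simpa using hm 27)

end Pool.Agent.MP_c481b3_nt.H40
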