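import Pool.Agent.MP_c481b3_nt.H40.SpecB
import Pool.Agent.MP_c481b3_nt.H28.Main

/-! Assembly of the theorem on almost all curves. -/

set_option autoImplicit false

namespace Pool.Agent.MP_c481b3_nt.H40

open Pool.Agent.MP_c481b3_nt.H81 Pool.Agent.MP_c481b3_nt.H28 NumberField Filter Topology

namespace GlueL

variable {K : Type} [Field K] [NumberField K]

/-- admissible primes of degree one -/
def Adm (q : ℕ) (P₀ : Ideal (𝓞 K)) : Prop :=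
  q.Prime ∧ 16 < q ∧ q % 4 = 1 ∧ P₀.IsMaximal ∧ Ideal.absNorm P₀ = q ∧ (q : 𝓞 K) ∉ P₀ ^ 2 ∧
    ∃ z : 𝓞 K ⧸ P₀, z ^ 8 - z ^ 4 + 1 = 0

/-- the local event -/
def Evt (S : (P : Ideal (𝓞 K)) → Set ((𝓞 K ⧸ P) × (𝓞 K ⧸ P))) (x : 𝓞 K × 𝓞 K) : Prop :=
  ∃ q P₀, Adm q P₀ ∧ rd P₀ x ∈ S P₀ ∧
    ∀ P : Ideal (𝓞 K), P.IsMaximal → (q : 𝓞 K) ∈ P → P ≠ P₀ → rd P x ∈ SetG (𝓞 K ⧸ P)

lemma fin {P : Ideal (𝓞 K)} (hP : P.IsMaximal) : Finite (𝓞 K ⧸ P) :=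
  P.finiteQuotientOfFreeOfNeBot (Ring.ne_bot_of_isMaximal_of_not_isField hP
    (RingOfIntegers.not_isField K))

lemma card_eq (P : Ideal (𝓞 K)) : Nat.card (𝓞 K ⧸ P) = Ideal.absNorm P := by
  rw [Ideal.absNorm_apply, Submodule.cardQuot_apply]

omit [NumberField K] in
lemma small {P : Ideal (𝓞 K)} (hP : P.IsMaximal) {q : ℕ} (hq : q.Prime) (h : (q : 𝓞 K) ∈ P)
    {m : ℕ} (m0 : 0 < m) (hm : m < q) : (m : 𝓞 K) ∉ P := fun e =>
  absurd (Nat.le_of_dvd m0 (dvd_of_mem hP hq h e)) (by omega)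

omit [NumberField K] in
lemma small' {P : Ideal (𝓞 K)} (hP : P.IsMaximal) {q : ℕ} (hq : q.Prime) (h : (q : 𝓞 K) ∈ P)
    (h5 : 5 ≤ q) : (2 : 𝓞 K ⧸ P) ≠ 0 ∧ (3 : 𝓞 K ⧸ P) ≠ 0 := by
  constructor
  · intro e
    exact small hP hq h two_pos (by omega)
      (Ideal.Quotient.eq_zero_iff_mem.1 (by simpa [map_ofNat] using e))
  · intro e
    exact small hP hq h three_pos (by omega)
      (Ideal.Quotient.eq_zero_iff_mem.1 (by simpa [map_ofNat] using e))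

lemma Adm.mem {q : ℕ} {P₀ : Ideal (𝓞 K)} (h : Adm q P₀) : (q : 𝓞 K) ∈ P₀ :=
  h.2.2.2.2.1 ▸ P₀.absNorm_mem

lemma ratio (hN : NoRootStmt) {P : Ideal (𝓞 K)} (hP : P.IsMaximal) {q : ℕ} (hq : q.Prime)
    (h : (q : 𝓞 K) ∈ P) (h16 : 16 < q) :
    1 / 4 ≤ ((SetG (𝓞 K ⧸ P)).ncard : ℝ) / (Ideal.absNorm P : ℝ) ^ 2 := by
  have := fin hP
  let := Ideal.Quotient.field P
  obtain ⟨h2, h3⟩ := small' hP hq h (by omega)
  have h4 := le_norm hP hq h (Ring.ne_bot_of_isMaximal_of_not_isField hP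
    (RingOfIntegers.not_isField K)) le_rfl
  have h5 := (hN (𝓞 K ⧸ P) h2 h3).1 (by rw [card_eq]; omega)
  rw [card_eq] at h5
  have h6 : (0 : ℝ) < Ideal.absNorm P := by exact_mod_cast (show 0 < Ideal.absNorm P by omega)
  rw [div_le_div_iff₀ (by norm_num) (by positivity), one_mul, mul_comm]
  exact_mod_cast h5

lemma rare (hN : NoRootStmt) (hB : BoxStmt) (hC : CrtStmt) (hD : DivStmt)
    (S : (P : Ideal (𝓞 K)) → Set ((𝓞 K ⧸ P) × (𝓞 K ⧸ P)))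
    (hS : ∀ q P₀, Adm q P₀ → q ≤ (S P₀).ncard + 1) {η : ℝ} (hη : 0 < η) :
    ∀ᶠ T : ℝ × ℝ in atTop ×ˢ atTop,
      ((Box K T ∩ {x | ¬Evt S x}).ncard : ℝ) ≤ η * (Box K T).ncard := by
  classical
  set n := Module.finrank ℚ K with hn
  obtain ⟨d1, d2⟩ := hD K
  choose! pr p1 p2 using d1
  obtain ⟨Q, q1, q2⟩ := d2 (2 * 4 ^ n * (16 ^ n / η)) 16
  have q3 : ∀ q ∈ Q, ∃ P₀ : Ideal (𝓞 K), Adm q P₀ := fun q hq => by
    obtain ⟨a, b, c, P₀, d⟩ := q2 q hq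
    exact ⟨P₀, a, b, c, d⟩
  choose! P₀ hP₀ using q3
  obtain ⟨G, _, s, g1, g2⟩ := hC K Q pr (fun q P => if P = P₀ q then S P else SetG (𝓞 K ⧸ P))
    (fun q => 1 / (2 * 4 ^ n) * (1 / (q : ℝ)))
    (fun q hq P hP => ((p2 q (q2 q hq).1 P).1 hP).1)
    (fun q hq q' hq' ne => Finset.disjoint_left.2 fun P h1 h2 => by
      have a := (p2 q (q2 q hq).1 P).1 h1
      have b := (p2 q' (q2 q' hq').1 P).1 h2
      exact ne ((Nat.prime_dvd_prime_iff_eq (q2 q hq).1 (q2 q' hq').1).1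
        (dvd_of_mem a.1 (q2 q hq).1 a.2 b.2)))
    (fun q hq => by
      have a := hP₀ q hq
      have m : P₀ q ∈ pr q := (p2 q a.1 _).2 ⟨a.2.2.2.1, a.mem⟩
      have q16 : (16 : ℝ) < q := by exact_mod_cast a.2.1
      rw [← Finset.mul_prod_erase _ _ m, if_pos rfl, a.2.2.2.2.1]
      have h1 : 1 / 2 * (1 / (q : ℝ)) ≤ ((S (P₀ q)).ncard : ℝ) / (q : ℝ) ^ 2 := by
        have : (q : ℝ) ≤ (S (P₀ q)).ncard + 1 := by exact_mod_cast hS q _ a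
        rw [le_div_iff₀ (by positivity)]
        field_simp
        linarith
      have h2 : (1 / 4 : ℝ) ^ n ≤ ∏ P ∈ (pr q).erase (P₀ q),
          (((if P = P₀ q then S P else SetG (𝓞 K ⧸ P)).ncard : ℝ) /
            (Ideal.absNorm P : ℝ) ^ 2) := by
        calc (1 / 4 : ℝ) ^ n ≤ (1 / 4) ^ ((pr q).erase (P₀ q)).card :=
              pow_le_pow_of_le_one (by norm_num) (by norm_num)
                (Finset.card_erase_le.trans (p1 q a.1))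
          _ = ∏ _P ∈ (pr q).erase (P₀ q), (1 / 4 : ℝ) := by rw [Finset.prod_const]
          _ ≤ _ := Finset.prod_le_prod (fun _ _ => by norm_num) fun P hP => by
              obtain ⟨e1, e2⟩ := Finset.mem_erase.1 hP
              obtain ⟨e3, e4⟩ := (p2 q a.1 P).1 e2
              rw [if_neg e1]
              exact ratio hN e3 a.1 e4 a.2.1
      calc _ = 1 / 2 * (1 / (q : ℝ)) * (1 / 4 : ℝ) ^ n := by
            rw [one_div_pow]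
            field_simp
        _ ≤ _ := mul_le_mul h1 h2 (by positivity) (by positivity))
  obtain ⟨b1, -, b3⟩ := hB K
  filter_upwards [b3 G s {x | ∀ q ∈ Q, ∃ P ∈ pr q,
    rd P x ∉ (if P = P₀ q then S P else SetG (𝓞 K ⧸ P))} _ g1 g2] with T hT
  refine le_trans ?_ (hT.trans (mul_le_mul_of_nonneg_right ?_ (by positivity)))
  · refine Nat.cast_le.2 (Set.ncard_le_ncard (Set.inter_subset_inter_right _ fun x hx q hq => ?_)
      ((b1 T).inter_of_left _))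
    by_contra hc
    push Not at hc
    have a := hP₀ q hq
    refine hx ⟨q, P₀ q, a, ?_, fun P h1 h2 h3 => ?_⟩
    · simpa using hc _ ((p2 q a.1 _).2 ⟨a.2.2.2.1, a.mem⟩)
    · simpa [h3] using hc P ((p2 q a.1 _).2 ⟨h1, h2⟩)
  · rw [← Finset.mul_sum, ← hn]
    have h1 : 16 ^ n / η ≤ 1 / (2 * 4 ^ n) * ∑ q ∈ Q, 1 / (q : ℝ) := by
      rw [one_div_mul_eq_div, le_div_iff₀ (by positivity), mul_comm]
      exact q1
    have h2 := (h1.trans (le_add_of_nonneg_right zero_le_one)).trans (Real.add_one_le_exp _)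
    rw [Real.exp_neg, ← div_eq_mul_inv, div_le_iff₀ (Real.exp_pos _)]
    rwa [div_le_iff₀' hη] at h2

omit [NumberField K] in
lemma wc_map (P : Ideal (𝓞 K)) (x : 𝓞 K × 𝓞 K) :
    (Wc x.1 x.2).map (Ideal.Quotient.mk P) = Wc (rd P x).1 (rd P x).2 := by
  ext <;> simp [Wc, rd]

omit [NumberField K] in
lemma disc_mem {P : Ideal (𝓞 K)} (x : 𝓞 K × 𝓞 K) :
    4 * (rd P x).1 ^ 3 + 27 * (rd P x).2 ^ 2 = 0 ↔ 4 * x.1 ^ 3 + 27 * x.2 ^ 2 ∈ P := by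
  rw [← Ideal.Quotient.eq_zero_iff_mem]
  simp [rd, map_ofNat]

omit [NumberField K] in
lemma delta_not {P : Ideal (𝓞 K)} (hP : P.IsMaximal) {q : ℕ} (hq : q.Prime) (h : (q : 𝓞 K) ∈ P)
    (h16 : 16 < q) {A B : 𝓞 K} (hd : 4 * A ^ 3 + 27 * B ^ 2 ∉ P) : (Wc A B).Δ ∉ P := by
  rw [Wc_disc]
  intro e
  rcases hP.isPrime.mem_or_mem e with e | e
  · exact small hP hq h (m := 16) (by norm_num) h16 (by simpa using e)
  · exact hd e

lemma other (hN : NoRootStmt) {P : Ideal (𝓞 K)} (hP : P.IsMaximal) {q : ℕ} (hq : q.Prime)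
    (h : (q : 𝓞 K) ∈ P) (h16 : 16 < q) {x : 𝓞 K × 𝓞 K} (hx : rd P x ∈ SetG (𝓞 K ⧸ P)) :
    x.1 ∉ P ∧ x.2 ∉ P ∧ 4 * x.1 ^ 3 + 27 * x.2 ^ 2 ∉ P ∧ aP x.1 x.2 P ≠ 0 := by
  have := fin hP
  let := Ideal.Quotient.field P
  obtain ⟨h2, h3⟩ := small' hP hq h (by omega)
  obtain ⟨k1, k2, k3⟩ := (hN (𝓞 K ⧸ P) h2 h3).2.2 _ hx
  refine ⟨fun e => hx.1 (Ideal.Quotient.eq_zero_iff_mem.2 e),
    fun e => k1 (Ideal.Quotient.eq_zero_iff_mem.2 e), fun e => k2 ((disc_mem x).2 e), ?_⟩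
  obtain ⟨q', n, c1, c2, c3⟩ := exists_char hP
  obtain rfl := (Nat.prime_dvd_prime_iff_eq hq c1).1 (dvd_of_mem hP hq h c2)
  have ho : Odd (Ideal.absNorm P) := c3 ▸ (hq.odd_of_ne_two (by omega)).pow
  rw [aP, wc_map]
  obtain ⟨a, ha⟩ := ho
  obtain ⟨b, hb⟩ := k3
  rw [ha, hb]
  push_cast
  omega

lemma good [IsTotallyComplex K] (hN : NoRootStmt) (hG : GenStmt) (hM : MultStmt) (hS : SeedStmt)
    {x : 𝓞 K × 𝓞 K} (h1 : Evt (fun P => SetS (𝓞 K ⧸ P)) x)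
    (h2 : Evt (fun P => SetM (𝓞 K ⧸ P)) x) :
    {P : Ideal (𝓞 K) | P.IsMaximal ∧ (Wc x.1 x.2).Δ ∉ P ∧ aP x.1 x.2 P = 0}.Infinite := by
  obtain ⟨q, P₀, a, ⟨s1, s2, s3, s4, s5⟩, s6⟩ := h1
  obtain ⟨p, P₁, b, ⟨m1, m2⟩, m3⟩ := h2
  have a0 := a.mem
  have b0 := b.mem
  obtain ⟨a1, a2, a3, a4, a5, a6, -⟩ := a
  obtain ⟨b1, b2, -, b4, b5, b6, -⟩ := b
  have d0 : 4 * x.1 ^ 3 + 27 * x.2 ^ 2 ∉ P₀ := fun e => s4 ((disc_mem x).2 e)
  have d1 := (disc_mem x).1 m2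
  have A1 : x.1 ∉ P₁ := fun e => m1 (Ideal.Quotient.eq_zero_iff_mem.2 e)
  refine hS K x.1 x.2 p (hM K x.1 x.2 P₁ p b4 b1 (by omega) b0 A1 d1
    fun e => d0 (e ▸ P₀.zero_mem)) (hG K _ _ p P₁ b1 b4 b5 b6 d1 (fun e => ?_) fun P c1 c2 c3 => ?_)
    P₀ q a4 a1 a3 a5 a6 (delta_not a4 a1 a0 a2 d0)
    (fun e => s1 (Ideal.Quotient.eq_zero_iff_mem.2 e))
    (fun e => s2 (Ideal.Quotient.eq_zero_iff_mem.2 e)) (fun e => s3 ?_) ?_ fun P c1 c2 c3 => ?_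
  · have e1 : 4 * x.1 ^ 3 ∈ P₁ := by
      simpa using P₁.sub_mem d1 (P₁.mul_mem_left 27 e)
    rcases b4.isPrime.mem_or_mem e1 with e2 | e2
    · exact small b4 b1 b0 (m := 4) (by norm_num) (by omega) (by simpa using e2)
    · exact A1 (b4.isPrime.mem_of_pow_mem 3 e2)
  · obtain ⟨-, k2, k3, -⟩ := other hN c1 b1 c2 b2 (m3 P c1 c2 c3)
    exact ⟨fun e => k2 (c1.isPrime.mem_of_pow_mem 2 e), k3⟩
  · simpa [rd, map_ofNat] using Ideal.Quotient.eq_zero_iff_mem.2 e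
  · rw [aP, wc_map, s5, card_eq]
    push_cast
    ring
  · obtain ⟨k1, k2, k3, k4⟩ := other hN c1 a1 c2 a2 (s6 P c1 c2 c3)
    exact ⟨k1, k2, delta_not c1 a1 c2 a2 k3, k4⟩

end GlueL

open GlueL in
theorem mainOf (hN : NoRootStmt) (hG : GenStmt) (hB : BoxStmt) (hC : CrtStmt) (hD : DivStmt)
    (hSs : SsStmt) (hM : MultStmt) (hS : SeedStmt) (K : Type) [Field K] [NumberField K]
    [IsTotallyComplex K] :
    Tendsto (fun T : ℝ × ℝ => ((Box K T ∩ {x | {P : Ideal (𝓞 K) | P.IsMaximal ∧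
      (Wc x.1 x.2).Δ ∉ P ∧ aP x.1 x.2 P = 0}.Infinite}).ncard : ℝ) / (Box K T).ncard)
      (atTop ×ˢ atTop) (𝓝 1) := by
  obtain ⟨b1, b2, -⟩ := hB K
  rw [Metric.tendsto_nhds]
  intro ε hε
  have r1 := rare hN hB hC hD (fun P : Ideal (𝓞 K) => SetS (𝓞 K ⧸ P)) (fun q P₀ a => by
    have := fin a.2.2.2.1
    have := a.2.2.2.1
    let := Ideal.Quotient.field P₀
    exact hSs _ q a.1 (by have := a.2.1; omega) a.2.2.1 (by rw [card_eq, a.2.2.2.2.1])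
      a.2.2.2.2.2.2) (show 0 < ε / 3 by positivity)
  have r2 := rare hN hB hC hD (fun P : Ideal (𝓞 K) => SetM (𝓞 K ⧸ P)) (fun q P₀ a => by
    have := fin a.2.2.2.1
    have := a.2.2.2.1
    let := Ideal.Quotient.field P₀
    obtain ⟨h2, h3⟩ := small' a.2.2.2.1 a.1 a.mem (by have := a.2.1; omega)
    have := (hN (𝓞 K ⧸ P₀) h2 h3).2.1
    rwa [card_eq, a.2.2.2.2.1] at this) (show 0 < ε / 3 by positivity)
  filter_upwards [r1, r2, (eventually_ge_atTop (0 : ℝ)).prod_mk (eventually_ge_atTop (0 : ℝ))]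
    with T t1 t2 t3
  set W := {x : 𝓞 K × 𝓞 K | {P : Ideal (𝓞 K) | P.IsMaximal ∧
      (Wc x.1 x.2).Δ ∉ P ∧ aP x.1 x.2 P = 0}.Infinite} with hW
  have pos : (0 : ℝ) < (Box K T).ncard := by
    exact_mod_cast (Set.ncard_pos (b1 T)).2 (b2 T t3.1 t3.2)
  have u1 : ((Box K T ∩ W).ncard : ℝ) ≤ (Box K T).ncard :=
    Nat.cast_le.2 (Set.ncard_le_ncard Set.inter_subset_left (b1 T))
  have u2 : (Box K T).ncard ≤ (Box K T ∩ W).ncard +
      ((Box K T ∩ {x | ¬Evt (fun P : Ideal (𝓞 K) => SetS (𝓞 K ⧸ P)) x}).ncard +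
        (Box K T ∩ {x | ¬Evt (fun P : Ideal (𝓞 K) => SetM (𝓞 K ⧸ P)) x}).ncard) := by
    refine le_trans (Set.ncard_le_ncard (fun x hx => ?_) (((b1 T).inter_of_left _).union
      (((b1 T).inter_of_left _).union ((b1 T).inter_of_left _))))
      ((Set.ncard_union_le _ _).trans (Nat.add_le_add_left (Set.ncard_union_le _ _) _))
    by_cases h1 : Evt (fun P : Ideal (𝓞 K) => SetS (𝓞 K ⧸ P)) x
    · by_cases h2 : Evt (fun P : Ideal (𝓞 K) => SetM (𝓞 K ⧸ P)) x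
      · exact Or.inl ⟨hx, good hN hG hM hS h1 h2⟩
      · exact Or.inr (Or.inr ⟨hx, h2⟩)
    · exact Or.inr (Or.inl ⟨hx, h1⟩)
  have u3 := (Nat.cast_le (α := ℝ)).2 u2
  push_cast at u3
  rw [Real.dist_eq, abs_sub_lt_iff, sub_lt_iff_lt_add, div_lt_iff₀ pos, sub_lt_comm,
    lt_div_iff₀ pos]
  constructor <;> nlinarith

end Pool.Agent.MP_c481b3_nt.H40
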