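import Pool.Agent.MP_c481b3_nt.H40.SpecB
import Pool.Agent.MP_c481b3_nt.H28.GoodC
import Pool.Agent.MP_c481b3_nt.H28.Kron
import Pool.Agent.MP_c481b3_nt.H28.Univ
import Pool.Agent.MP_c481b3_nt.H28.Cong

/-! A prime of multiplicative reduction excludes self isogenies of large prime degree. -/

set_option autoImplicit false

namespace Pool.Agent.MP_c481b3_nt.H40

open Pool.Agent.MP_c481b3_nt.H81 Pool.Agent.MP_c481b3_nt.H28 Polynomial NumberField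

namespace MultA

lemma nat_not_mem {R : Type} [CommRing R] {P : Ideal R} (hP : P.IsMaximal) {q N : ℕ}
    (hq : q.Prime) (h1 : (q : R) ∈ P) (h : ¬q ∣ N) : (N : R) ∉ P := fun h2 => by
  obtain ⟨a, b, e⟩ := (Nat.Coprime.cast (R := R) ((Nat.Prime.coprime_iff_not_dvd hq).2 h))
  exact hP.ne_top ((Ideal.eq_top_iff_one P).2 (e ▸ P.add_mem (P.mul_mem_left a h1)
    (P.mul_mem_left b h2)))

lemma not_dvd_six {p : ℕ} (hp : p.Prime) (h5 : 5 ≤ p) : ¬p ∣ 6 := fun h => by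
  rcases (Nat.Prime.dvd_mul hp (m := 2) (n := 3)).1 h with h | h
  · have := Nat.le_of_dvd two_pos h
    omega
  · have := Nat.le_of_dvd three_pos h
    omega

end MultA

open MultA in
theorem mult : MultStmt := by
  classical
  intro K _ _ A B P p hP hp h5 hpP hA hD hD0 l hl hpl D hDs hz
  obtain ⟨O, o1, o2⟩ := exists_val (iK (K := K)) iK_inj P hP
  have hpr := hP.isPrime
  have v1 : ∀ r : 𝓞 K, r ∉ P → O.valuation (iK r) = 1 := fun r hr =>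
    le_antisymm ((O.valuation_le_one_iff _).2 (o1 r)) (not_lt.1 fun h => hr ((o2 r).1 h))
  have p6 := not_dvd_six hp h5
  have n6 : ∀ k : ℕ, ((6 ^ k : ℕ) : 𝓞 K) ∉ P := fun k =>
    nat_not_mem hP hp hpP fun h => p6 (hp.dvd_of_dvd_pow h)
  have nd : ∀ N k : ℕ, N ∣ 6 ^ k → (N : 𝓞 K) ∉ P := fun N k ⟨c, hc⟩ h => n6 k (by
    rw [hc, Nat.cast_mul]; exact P.mul_mem_right _ h)
  have hA3 : ∀ N k : ℕ, N ∣ 6 ^ k → (N : 𝓞 K) * A ^ 3 ∉ P := fun N k h =>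
    P.primeCompl.mul_mem (nd N k h) (P.primeCompl.pow_mem hA 3)
  have hB : B ∉ P := fun h => hA3 4 2 (by norm_num) (by
    have := P.sub_mem hD (P.mul_mem_left 27 (P.pow_mem_of_mem h 2 two_pos))
    simpa using this)
  have ne' : ∀ {r : 𝓞 K}, r ∉ P → iK r ≠ 0 := fun h =>
    (map_ne_zero_iff _ iK_inj).2 fun e => h (e ▸ P.zero_mem)
  have eD : iK (4 * A ^ 3 + 27 * B ^ 2) = 4 * iK A ^ 3 + 27 * iK B ^ 2 := by
    rw [map_add, map_mul, map_mul, map_pow, map_pow, map_ofNat, map_ofNat]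
  have d0 : iK (4 * A ^ 3 + 27 * B ^ 2) ≠ 0 := (map_ne_zero_iff _ iK_inj).2 hD0
  have gd : Good (iK A) (iK B) := ⟨two_ne_zero, eD ▸ d0⟩
  have := Fact.mk hl
  have l5 : 5 ≤ l := by omega
  have ho : Odd l := hl.odd_of_ne_two (by omega)
  obtain ⟨c1, c2⟩ := (tm_char gd hl.ne_zero).mem_subs.1 hDs
  obtain ⟨u, d⟩ := vd_of_dl gd three_ne_zero (ne' hA) (ne' hB) c1 (c2 ▸ ho) hz
  obtain ⟨-, Ψ, hΨ⟩ := univ l hl.ne_zero
  obtain ⟨a, Ψ₁, e1, e2⟩ := kron l Ψ hl l5 hΨ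
  have S0 : (X ^ (2 * l + 2) * (X ^ l - X) : (ZMod l)[X]) ≠ 0 :=
    mul_ne_zero (pow_ne_zero _ X_ne_zero) (FiniteField.X_pow_card_sub_X_ne_zero _ hl.one_lt)
  have Ψ0 : Ψ ≠ 0 := by
    rw [e1]
    refine mul_ne_zero (C_ne_zero.2 (pow_ne_zero _ (Nat.cast_ne_zero.2 hl.ne_zero))) fun e => ?_
    rw [e, Polynomial.map_zero] at e2
    exact pow_ne_zero 2 S0 (neg_eq_zero.1 e2.symm)
  have hv : O.valuation ((6 * l : ℕ) : AlgebraicClosure K) = 1 := by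
    rw [← map_natCast (iK (K := K))]
    refine v1 _ (nat_not_mem hP hp hpP fun h => ?_)
    rcases (Nat.Prime.dvd_mul hp).1 h with h | h
    · exact p6 h
    · have := (Nat.prime_dvd_prime_iff_eq hp hl).1 h
      omega
  have hj := (O.valuation_le_one_iff _).2 (goodRed _ O l Ψ ho hΨ Ψ0 hv _ _ u D d c2)
  have eN : iK (((6912 : ℕ) : 𝓞 K) * A ^ 3) = 6912 * iK A ^ 3 := by
    rw [map_mul, map_pow, map_natCast, Nat.cast_ofNat]
  rw [jj, ← eD, ← eN, map_div₀, v1 _ (hA3 6912 8 (by norm_num)),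
    div_le_one₀ (zero_lt_iff.2 ((_root_.map_ne_zero _).2 d0))] at hj
  exact absurd ((o2 _).2 hD) (not_lt.2 hj)

end Pool.Agent.MP_c481b3_nt.H40
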