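import Pool.Agent.MP_c481b3_nt.H40.SpecA

/-! Counting cubics without roots over a finite field. -/

set_option autoImplicit false

namespace Pool.Agent.MP_c481b3_nt.H40

open Pool.Agent.MP_c481b3_nt.H81 Finset

namespace NoRootA

variable {F : Type} [Field F]

/-- the roots of the cubic -/
def R [Fintype F] [DecidableEq F] (x : F × F) : Finset F :=
  univ.filter fun y => y ^ 3 + x.1 * y + x.2 = 0

theorem R_le [Fintype F] [DecidableEq F] (x : F × F) : (R x).card ≤ 3 := by
  have hm : (Polynomial.X ^ 3 + (Polynomial.C x.1 * Polynomial.X + Polynomial.C x.2)).Monic := by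
    monicity!
  refine (Polynomial.card_le_degree_of_subset_roots
    (p := Polynomial.X ^ 3 + (Polynomial.C x.1 * Polynomial.X + Polynomial.C x.2))
    fun y hy => ?_).trans (by compute_degree)
  rw [Polynomial.mem_roots hm.ne_zero]
  simpa [add_assoc] using (mem_filter.1 hy).2

theorem sum_R [Fintype F] [DecidableEq F] : ∑ x : F × F, (R x).card = Fintype.card F ^ 2 := by
  simp only [R, card_filter, Fintype.sum_prod_type]
  have h : ∀ a : F, ∑ b : F, ∑ y : F, (if y ^ 3 + a * y + b = 0 then 1 else 0) =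
      Fintype.card F := fun a => by
    rw [sum_comm]
    simp [← neg_eq_iff_add_eq_zero]
  simp only [h]
  simp [sq]

theorem off_le [Fintype F] [DecidableEq F] :
    Fintype.card F * Fintype.card F - Fintype.card F ≤ ∑ x : F × F, (R x).offDiag.card := by
  rw [← card_univ, ← offDiag_card]
  refine le_trans (card_le_card fun z hz => ?_) card_biUnion_le
  refine mem_biUnion.2 ⟨(-(z.1 ^ 2 + z.1 * z.2 + z.2 ^ 2), z.1 * z.2 * (z.1 + z.2)), mem_univ _,
    mem_offDiag.2 ⟨mem_filter.2 ⟨mem_univ _, ?_⟩, mem_filter.2 ⟨mem_univ _, ?_⟩,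
      (mem_offDiag.1 hz).2.2⟩⟩ <;> ring

theorem count [Fintype F] (h : 16 ≤ Fintype.card F) :
    Fintype.card F ^ 2 ≤ 4 * (SetG F).ncard := by
  classical
  have h1 : ∑ x : F × F, ((R x).offDiag.card + 3) ≤
      ∑ x : F × F, (3 * (R x).card + 3 * if R x = ∅ then 1 else 0) := sum_le_sum fun x _ => by
    have := R_le x
    rw [offDiag_card]
    simp only [← card_eq_zero]
    generalize (R x).card = k at this
    interval_cases k <;> simp
  rw [sum_add_distrib, sum_add_distrib, ← mul_sum, ← mul_sum, sum_R, ← card_filter, sum_const,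
    card_univ, Fintype.card_prod, smul_eq_mul] at h1
  have h2 : (univ.filter fun x : F × F => R x = ∅).card ≤ (SetG F).ncard + Fintype.card F := by
    rw [Set.ncard_eq_toFinset_card']
    refine le_trans (card_le_card (t := (SetG F).toFinset ∪ univ.image fun b : F => (0, b))
      fun x hx => ?_) ((card_union_le _ _).trans (add_le_add le_rfl card_image_le))
    by_cases h0 : x.1 = 0
    · exact mem_union_right _ (mem_image.2 ⟨x.2, mem_univ _, Prod.ext h0.symm rfl⟩)
    · exact mem_union_left _ (Set.mem_toFinset.2 ⟨h0, fun y =>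
        filter_eq_empty_iff.1 (mem_filter.1 hx).2 (mem_univ y)⟩)
  have h3 := off_le (F := F)
  have h4 : 16 * Fintype.card F ≤ Fintype.card F * Fintype.card F := Nat.mul_le_mul_right _ h
  rw [sq] at h1 ⊢
  omega

theorem node [Finite F] (h3 : (3 : F) ≠ 0) (h2 : (2 : F) ≠ 0) :
    Nat.card F ≤ (SetM F).ncard + 1 := by
  have h := Set.ncard_le_ncard_of_injOn (s := ({0}ᶜ : Set F)) (t := SetM F)
    (fun t : F => (-3 * t ^ 2, 2 * t ^ 3))
    (fun t ht => ⟨mul_ne_zero (neg_ne_zero.2 h3) (pow_ne_zero _ ht), by ring⟩)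
    (fun t _ s hs e => by
      have e1 := mul_left_cancel₀ (neg_ne_zero.2 h3) (congrArg Prod.fst e)
      have e2 := mul_left_cancel₀ h2 (congrArg Prod.snd e)
      exact mul_left_cancel₀ (pow_ne_zero 2 hs) (by linear_combination e2 - t * e1))
  have := Set.ncard_add_ncard_compl ({0} : Set F)
  rw [Set.ncard_singleton] at this
  omega

theorem odd [Finite F] (h2 : (2 : F) ≠ 0) {a b : F} (h : ∀ y : F, y ^ 3 + a * y + b ≠ 0) :
    Odd (Nat.card (Pt a b)) := by
  classical
  have : Finite (Pt a b) := Finite.of_injective (fun P => (decide (P = 0), xc P, yc P))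
    fun P Q e => by
      simp only [Prod.mk.injEq, decide_eq_decide] at e
      by_cases hP : P = 0
      · rw [hP, e.1.1 hP]
      · exact pt_ext hP (fun k => hP (e.1.2 k)) e.2.1 e.2.2
  rw [← Nat.not_even_iff_odd]
  intro he
  obtain ⟨P, hP⟩ := exists_prime_addOrderOf_dvd_card' (G := Pt a b) 2 he.two_dvd
  obtain ⟨k1, k2⟩ := addOrderOf_eq_prime_iff.1 hP
  have k3 := congrArg yc (neg_eq_of_add_eq_zero_left ((two_nsmul P).symm.trans k1))
  rw [yc_neg] at k3
  have k4 : yc P = 0 := mul_left_cancel₀ h2 (by linear_combination -k3)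
  have k5 := eqn k2
  rw [k4] at k5
  exact h (xc P) (by linear_combination -k5)

end NoRootA

theorem noRoot : NoRootStmt := by
  intro F _ _ h2 h3
  refine ⟨?_, NoRootA.node h3 h2, fun x hx => ⟨fun h => hx.2 0 (by simp [h]), fun h => ?_,
    NoRootA.odd h2 hx.2⟩⟩
  · have := Fintype.ofFinite F
    rw [Nat.card_eq_fintype_card]
    exact NoRootA.count
  · have h1 := hx.1
    refine hx.2 (3 * x.2 / x.1) ?_
    field_simp
    linear_combination x.2 * h

end Pool.Agent.MP_c481b3_nt.H40
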