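import Pool.Agent.MP_c481b3_nt.H40.SpecB
import Pool.Agent.MP_c481b3_nt.H28.Main

/-! The seed criterion for curves without quotients of the same invariant. -/

set_option autoImplicit false

namespace Pool.Agent.MP_c481b3_nt.H40

open Pool.Agent.MP_c481b3_nt.H81 Pool.Agent.MP_c481b3_nt.H28 Polynomial NumberField

namespace SeedL

variable {K : Type} [Field K] [NumberField K] [DecidableEq (AlgebraicClosure K)]

section loc
variable {A B : 𝓞 K} {P : Ideal (𝓞 K)} {O : ValuationSubring (AlgebraicClosure K)} {q n : ℕ}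
  (c : Loc A B P O q n) [Fact q.Prime] [CharP (IsLocalRing.ResidueField O) q]
  [DecidableEq (IsLocalRing.ResidueField O)]
include c

open Classical in
lemma par (hP : Parity) (h5 : 5 ≤ q) (hA : A ∉ P) (hB : B ∉ P) {l : ℕ}
    (H : ∀ D ∈ subs (iK A) (iK B) l, dl D ≠ 0) (hl : l.Prime) (h2 : l ≠ 2) (hq : ¬q ∣ l)
    {w : 𝓞 K} (w1 : w ∈ P) (w2 : w ∉ P ^ 2) :
    (∀ D ∈ subs (iK A) (iK B) l, ∃ j : ℕ, O.valuation (dl D) = O.valuation (iK w) ^ j) ∧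
    ∀ s : ℕ, O.valuation (∏ D ∈ subs (iK A) (iK B) l, dl D) = O.valuation (iK w) ^ s →
      ∃ m : ℕ, Odd m ∧ s % 2 = ((subs (iK A) (iK B) l).filter fun D =>
        (∃ j, Odd j ∧ O.valuation (dl D) = O.valuation (iK w) ^ j) ∧ SD l (D.image c.rd.red) ∧
          ∀ Q ∈ D.image c.rd.red,
            (frP c.good q n (c.fix A) (c.fix B))^[m] Q ∈ D.image c.rd.red).card % 2 := by
  obtain ⟨σ, s1, s2⟩ := c.exists_sigma
  have w0 : iK w ≠ 0 := (map_ne_zero_iff _ iK_inj).2 fun e => w2 (e ▸ zero_mem _)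
  exact hP _ _ (resPlc O) (iK A) (iK B) _ _ c.rd l hl h2
    ⟨c.good, c.three h5, c.nat_ne fun e => hq (c.nat_mem.1 e)⟩ (c.rs_ne hA) (c.rs_ne hB)
    (algebraMap K (AlgebraicClosure K)).fieldRange (iK w) ⟨A, rfl⟩ ⟨B, rfl⟩ ⟨w, rfl⟩ w0
    ((c.lt w).2 w1) ((discreteAt K P c.max O c.mem c.lt).2.2 w w1 w2).1
    σ.toRingEquiv.toRingHom (iterateFrobenius _ q n) (c.fix A) (c.fix B) (σ.commutes (A : K))
    (σ.commutes (B : K)) (σ.commutes (w : K)) s1 s2 H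

/-- a prime of odd order at which `-l` is not a square has trace zero -/
theorem odd_zero (hP : Parity) (h5 : 5 ≤ q) (hA : A ∉ P) (hB : B ∉ P)
    {l : ℕ} (H : ∀ D ∈ subs (iK A) (iK B) l, dl D ≠ 0) (hl : l.Prime) (h2 : l ≠ 2)
    (hJ : jacobiSym (-(l : ℤ)) (Ideal.absNorm P) = -1)
    {s s' x g : 𝓞 K} (hs : s ∉ P) (hs' : s' ∉ P) (g0 : g ≠ 0)
    (e : iK (s * x * g ^ 2) = iK s' * ∏ D ∈ subs (iK A) (iK B) l, dl D) (hx : OddAt P x) :
    aP A B P = 0 := by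
  classical
  rw [c.norm] at hJ
  obtain ⟨no, hJ⟩ := jacobi_pow hJ
  have hq : ¬q ∣ l := fun h => by
    rw [jacobiSym.mod_left, Int.emod_eq_zero_of_dvd ((dvd_neg).2 (Int.natCast_dvd_natCast.2 h)),
      jacobiSym.zero_left c.prime.one_lt] at hJ
    omega
  obtain ⟨⟨w, w1, w2⟩, -⟩ := discreteAt K P c.max O c.mem c.lt
  obtain ⟨a, ao, a1, a2⟩ := hx
  obtain ⟨b, hb⟩ := c.val w1 w2 hs hs' g0 e a1 a2
  obtain ⟨m, mo, hm⟩ := (par c hP h5 hA hB H hl h2 hq w1 w2).2 _ hb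
  obtain ⟨D, hD⟩ := Finset.card_pos.1 (Nat.pos_of_ne_zero fun e => by
    rw [e] at hm
    obtain ⟨a, rfl⟩ := ao
    omega)
  obtain ⟨-, -, ⟨u, d, hu, -⟩, st⟩ := Finset.mem_filter.1 hD
  have h3 := c.three h5
  have cr := compRing h3 c.good
  obtain ⟨φ, f1, f2, -⟩ := d.exists_end (hG := c.good) h3
  obtain ⟨e1, e2⟩ := frE_pow c.good q n (c.fix A) (c.fix B) m
  have an := anti_of_stab c.good h3 q (n * m) _ _ (c.rs_ne hA) (c.rs_ne hB) d f1
    (fun Q hQ => e2 Q ▸ st Q hQ)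
    (pow_ne_self q c.good.two hJ (by simpa using hu) (no.mul mo))
  rw [← e1] at an
  have φ0 : φ ≠ 0 := fun e => d.hu (by rw [← f2, e, map_zero])
  rw [← c.tr h5]
  exact cr.tr_pow c.prime h5 no mo (NE_frE _ _ _ _ _)
    (cr.tr_anti φ0 (neg_eq_iff_eq_neg.1 an.symm))

end loc

/-- at the seed prime the order is odd for suitable primes `l` -/
theorem seed_odd (hP : Parity) (hM : ModSq) (hS : SeedAlg) {A B : 𝓞 K} {M₀ : ℕ}
    (H : NoSelf (iK A) (iK B) M₀)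
    {P : Ideal (𝓞 K)} (hm : P.IsMaximal) {p : ℕ} (pp : p.Prime) (hp : p % 4 = 1)
    (hN : Ideal.absNorm P = p) (hu : (p : 𝓞 K) ∉ P ^ 2) (hΔ : (Wc A B).Δ ∉ P) (hA : A ∉ P)
    (hB : B ∉ P) (hj : 392 * A ^ 3 + 3375 * B ^ 2 ∉ P) (ha : aP A B P = 0) (M : ℕ)
    (hM₀ : M₀ ≤ M) :
    ∃ l : ℕ, l.Prime ∧ M < l ∧ l % 8 = 7 ∧
      (∀ q : ℕ, q.Prime → q ≤ M → q ≠ 2 → q ≠ p → jacobiSym (-(l : ℤ)) q = 1) ∧
      jacobiSym (-(l : ℤ)) p = -1 ∧ ∀ s s' x g : 𝓞 K, s ∉ P → s' ∉ P → x ≠ 0 → g ≠ 0 →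
        iK (s * x * g ^ 2) = iK s' * ∏ D ∈ subs (iK A) (iK B) l, dl D → OddAt P x := by
  classical
  obtain ⟨O, q, n, c⟩ := exists_loc hm hΔ
  obtain ⟨rfl, rfl⟩ : p = q ∧ n = 1 := by
    have := c.norm
    rw [hN, eq_comm, pp.pow_eq_iff] at this
    exact ⟨this.1.symm, this.2⟩
  have := Fact.mk pp
  have := c.char
  have h5 : 5 ≤ p := by have := pp.two_le; omega
  have h3 := c.three h5
  have cr := compRing h3 c.good
  set π := frE c.good p 1 (c.fix A) (c.fix B) with hπd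
  have π0 : π ≠ 0 := frE_ne _ h3 _ _ _ _
  have hπ : π * π = -(p : EE c.good) := by
    rw [cr.char, c.tr h5, ha, NE_frE]; simp
  have a0 := c.rs_ne hA
  have b0 := c.rs_ne hB
  have csq : ∀ φ : EE c.good, φ * π = -(π * φ) → cE c.good φ ^ 2 = -(NE φ : ℤ) := fun φ h => by
    rw [sq, ← map_mul, cr.sq_anti π0 h, map_neg, map_intCast]
  obtain ⟨l, l', φ, φ', t, e, e', h1, h2, h4⟩ := hS (EE c.good) NE cr p π pp hp hπ
    (exists_sep c.good h3 p hp _ _ hπ) (fun φ h h' => nonres c.good h3 p _ _ h h')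
    (fun r φ hr hr' h h' => descend c.good h3 hπ π0 hr (by
      rwa [Ne, CharP.cast_eq_zero_iff _ p, Nat.prime_dvd_prime_iff_eq pp hr, eq_comm]) h h')
    (fun φ h h' => hj ((c.lt _).1 (Ev.v_lt (π := resPlc O) (by
      have := ((Ev.ofNat _ 392).mul ((c.ev A).pow 3)).add ((Ev.ofNat _ 3375).mul ((c.ev B).pow 2))
      rw [norm_two c.good h3 (by rw [csq φ h, h']; simp) h'] at this
      simpa [map_ofNat] using this)))) M
  have w1 : (p : 𝓞 K) ∈ P := c.nat_mem.2 dvd_rfl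
  have vp : O.valuation (iK (p : 𝓞 K)) < 1 := (c.lt _).2 w1
  have vp0 : O.valuation (iK (p : 𝓞 K)) ≠ 0 := by simpa using pp.ne_zero
  have lift : ∀ {l : ℕ} {φ : EE c.good}, SeedEl NE p π M l φ → l ≠ 2 ∧ ¬p ∣ l ∧
      Tm (rs O A) (rs O B) l ∧ ∃ D ∈ subs (iK A) (iK B) l,
        VD (D.image c.rd.red) (cE c.good φ) (rs O A) (rs O B) ∧ cE c.good φ ^ 2 = -l ∧
        (∀ Q, φ.1 Q = vm (D.image c.rd.red) (cE c.good φ) (rs O A) (rs O B) Q) ∧
        ∀ Q, φ.1 (φ.1 Q) = -(l • Q) := by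
    intro l φ e
    have hq : ¬p ∣ l := fun h => by
      have := e.nonres
      rw [jacobiSym.mod_left, Int.emod_eq_zero_of_dvd ((dvd_neg).2 (Int.natCast_dvd_natCast.2 h)),
        jacobiSym.zero_left pp.one_lt] at this
      omega
    have t : Tm (rs O A) (rs O B) l := ⟨c.good, h3, c.nat_ne fun e => hq (c.nat_mem.1 e)⟩
    have u1 : cE c.good φ ^ 2 = -l := by rw [csq φ e.anti, e.norm, Int.cast_natCast]
    obtain ⟨D', d, d1, d2⟩ := exists_vd h3 φ (fun e0 => t.ne (by simpa [e0] using u1))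
    obtain ⟨D, hD, rfl⟩ := exists_lift_sub c.rd t
      (t.mem_subs.2 ⟨d.sub, by rw [e.norm] at d1; exact_mod_cast d1⟩)
    refine ⟨by have := e.mod8; omega, hq, t, D, hD, d, u1, fun Q => by rw [d2]; rfl, fun Q => ?_⟩
    rw [← EE_mul, cr.sq_anti π0 e.anti, e.norm, EE_neg, Int.cast_natCast, EE_nat]
  have one : ∀ {l : ℕ} {φ : EE c.good} (e : SeedEl NE p π M l φ), ∀ D ∈ subs (iK A) (iK B) l,
      VD (D.image c.rd.red) (cE c.good φ) (rs O A) (rs O B) →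
      (∀ Q, φ.1 Q = vm (D.image c.rd.red) (cE c.good φ) (rs O A) (rs O B) Q) →
      ¬O.valuation (dl D) ≤ O.valuation (iK (p : 𝓞 K)) ^ 2 →
      ∀ s s' x g : 𝓞 K, s ∉ P → s' ∉ P → x ≠ 0 → g ≠ 0 →
        iK (s * x * g ^ 2) = iK s' * ∏ D ∈ subs (iK A) (iK B) l, dl D → OddAt P x := by
    intro l φ e D hD d hφ hv s s' x g hs hs' x0 g0 eq
    obtain ⟨l2, lp, t, D₁, -, -, u1, -, u2⟩ := lift e
    obtain ⟨k1, k2⟩ := par c hP h5 hA hB (H l e.prime (hM₀.trans_lt e.big)) e.prime l2 lp w1 hu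
    obtain ⟨a, a1, a2⟩ := (discreteAt K P hm O c.mem c.lt).2.1 x x0
    obtain ⟨b, hb⟩ := c.val w1 hu hs hs' g0 eq a1 a2
    obtain ⟨m, mo, hm'⟩ := k2 _ hb
    obtain ⟨c1, c2⟩ := (t.up c.rd).mem_subs.1 hD
    obtain ⟨e1, e2⟩ := frE_pow c.good p 1 (c.fix A) (c.fix B) m
    have kφ : ∀ Q, Q ∈ D.image c.rd.red ↔ φ.1 Q = 0 := fun Q => by rw [hφ, d.eq_zero]
    refine ⟨a, ?_, a1, a2⟩
    have fin : ∀ S : Finset (Finset (Pt (iK A) (iK B))), (a + 2 * b) % 2 = S.card % 2 → S = {D} →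
        Odd a := by
      rintro _ h rfl
      rw [Finset.card_singleton] at h
      rw [Nat.odd_iff]; omega
    refine fin _ hm' (Finset.eq_singleton_iff_unique_mem.2
      ⟨Finset.mem_filter.2 ⟨hD, ?_, ?_, ?_⟩, ?_⟩)
    · obtain ⟨j, hj⟩ := k1 D hD
      have v1 := (ev_dl c.rd c1 (red_sub_ne c.rd c1 (c2 ▸ t.ne)))
      rw [d.dl_eq] at v1
      have v2 : O.valuation (dl D) < 1 := v1.v_lt
      rw [hj] at v2 hv
      refine ⟨j, ?_, hj⟩
      rcases j with _ | _ | j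
      · simp at v2
      · simp
      · exact absurd (pow_le_pow_right_of_le_one' vp.le (by omega)) hv
    · exact ⟨_, d, u1, fun Q => by rw [← hφ, ← hφ, u2]⟩
    · intro Q hQ
      refine Function.Iterate.rec (· ∈ D.image c.rd.red) hQ (fun R hR => ?_) m
      rw [kφ] at hR ⊢
      change (φ * π).1 R = 0
      rw [e.anti, EE_neg, EE_mul, hR, map_zero, neg_zero]
    · intro D' hD'
      obtain ⟨m1, -, ⟨u, d', hu', -⟩, st⟩ := Finset.mem_filter.1 hD'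
      obtain ⟨ψ, f1, f2, f3⟩ := d'.exists_end (hG := c.good) h3
      have an := anti_of_stab c.good h3 p (1 * m) _ _ a0 b0 d' f1 (fun Q hQ => e2 Q ▸ st Q hQ)
        (pow_ne_self p c.good.two e.nonres (by simpa using hu') (by simpa using mo))
      rw [← e1] at an
      obtain ⟨i, rfl⟩ := mo
      have z : ((-p : ℤ) ^ i : ℤ) ≠ 0 := pow_ne_zero _ (by simpa using pp.ne_zero)
      have an' : ψ * π = -(π * ψ) := by
        refine cr.cancel (cr.int_ne z) ?_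
        rw [← hπd, pow_succ, pow_mul, sq, hπ,
          show (-(p : EE c.good)) ^ i = (((-p : ℤ) ^ i : ℤ) : EE c.good) by simp] at an
        rw [mul_neg, ← mul_assoc, ← mul_assoc, ← an, Int.cast_comm, mul_assoc]
      have c3 := (t.mem_subs.1 (red_subs c.rd t m1)).2
      refine subs_inj c.rd t m1 hD ?_
      ext Q
      change Q ∈ D'.image c.rd.red ↔ Q ∈ D.image c.rd.red
      rw [kφ, ← d'.hom_eq_zero h3, ← f1]
      rcases e.uniq ψ an' (by rw [f3, c3]) with rfl | rfl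
      · rfl
      · exact neg_eq_zero
  obtain ⟨-, -, t1, D, hD, d, u1, u2, u3⟩ := lift e
  obtain ⟨-, -, t2, D', hD', d', v1, v2, v3⟩ := lift e'
  by_cases k1 : O.valuation (dl D) ≤ O.valuation (iK (p : 𝓞 K)) ^ 2
  · by_cases k2 : O.valuation (dl D') ≤ O.valuation (iK (p : 𝓞 K)) ^ 2
    · exfalso
      rw [← map_pow] at k1 k2
      have := hM _ _ (resPlc O) _ _ _ _ c.rd p l l' t pp (CharP.cast_eq_zero _ p) e.prime e'.prime
        t1 t2 (by rwa [Ne, CharP.intCast_eq_zero_iff _ p]) a0 b0 D hD D' hD' _ _ d d' u1 v1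
        (fun Q => by rw [← u2, ← u2, u3]) (fun Q => by rw [← v2, ← v2, v3])
        (fun Q => by rw [← u2, ← u2, ← v2, ← v2, ← EE_mul, ← EE_mul, ← EE_add, h1, EE_int])
        _ (by rw [map_pow]; exact pow_lt_one₀ zero_le vp two_ne_zero) k1 k2
      have dv : ∀ z : ℤ, O.valuation (z : AlgebraicClosure K) < 1 → (p : ℤ) ∣ z := fun z hz => by
        rw [← CharP.intCast_eq_zero_iff (IsLocalRing.ResidueField O) p]
        exact (Ev.int (resPlc O) z).unique (Ev.of_lt hz)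
      change O.valuation _ ≤ O.valuation _ at this
      rw [map_pow] at this
      obtain ⟨z, hz⟩ := dv _ (this.trans_lt (pow_lt_one₀ zero_le vp two_ne_zero))
      rw [hz, Int.cast_mul, map_mul, Int.cast_natCast, sq, map_natCast iK,
        mul_le_mul_iff_right₀ (zero_lt_iff.2 (by simpa using vp0))] at this
      obtain ⟨z', hz'⟩ := dv z (this.trans_lt (by simpa using vp))
      exact h4 ⟨z', by rw [hz, hz']; ring⟩
    · exact ⟨l', e'.prime, e'.big, e'.mod8, e'.res, e'.nonres, one e' D' hD' d' v2 k2⟩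
  · exact ⟨l, e.prime, e.big, e.mod8, e.res, e.nonres, one e D hD d u2 k1⟩

theorem main [IsTotallyComplex K] {A B : 𝓞 K} {M₀ : ℕ}
    (H : NoSelf (iK A) (iK B) M₀)
    (hK : IntermediateField.adjoin ℚ {((A ^ 3 : 𝓞 K) : K) / ((B ^ 2 : 𝓞 K) : K)} = ⊤)
    {P₀ : Ideal (𝓞 K)} (hm : P₀.IsMaximal) {p : ℕ} (pp : p.Prime) (hp : p % 4 = 1)
    (hN : Ideal.absNorm P₀ = p) (hu : (p : 𝓞 K) ∉ P₀ ^ 2) (hΔ : (Wc A B).Δ ∉ P₀) (hA : A ∉ P₀)
    (hB : B ∉ P₀) (hj : 392 * A ^ 3 + 3375 * B ^ 2 ∉ P₀) (ha : aP A B P₀ = 0)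
    (ho : ∀ P : Ideal (𝓞 K), P.IsMaximal → (p : 𝓞 K) ∈ P → P ≠ P₀ →
      A ∉ P ∧ B ∉ P ∧ (Wc A B).Δ ∉ P ∧ aP A B P ≠ 0) :
    {P : Ideal (𝓞 K) | P.IsMaximal ∧ (Wc A B).Δ ∉ P ∧ aP A B P = 0}.Infinite := by
  classical
  intro fin
  have hP := parity_of univ unram
  have ne : ∀ {r : 𝓞 K}, r ∉ P₀ → r ≠ 0 := fun h e => h (e ▸ P₀.zero_mem)
  have ne' : ∀ {r : 𝓞 K}, r ∉ P₀ → iK r ≠ 0 := fun h => (map_ne_zero_iff _ iK_inj).2 (ne h)
  obtain ⟨d, hd⟩ := degOne K _ _ hK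
  obtain ⟨M, M0, M1, M2, M3⟩ : ∃ M, M₀ ≤ M ∧ d ≤ M ∧ 5 ≤ M ∧
      ∀ (P : Ideal (𝓞 K)) (q : ℕ), P.IsMaximal →
      q.Prime → (q : 𝓞 K) ∈ P → M < q → A ∉ P ∧ B ∉ P ∧ (Wc A B).Δ ∉ P ∧ aP A B P ≠ 0 := by
    refine ⟨fin.toFinset.sup Ideal.absNorm + Ideal.absNorm (Ideal.span {A * B * (Wc A B).Δ}) + d
      + 5 + M₀, by omega, by omega, by omega, fun P q h1 h2 h3 h4 => ?_⟩
    have h5 : A * B * (Wc A B).Δ ∉ P := fun h => by
      have := le_norm h1 h2 h3 (Ideal.span_singleton_eq_bot.not.2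
        (mul_ne_zero (mul_ne_zero (ne hA) (ne hB)) (ne hΔ))) ((Ideal.span_singleton_le_iff_mem P).2 h)
      omega
    have h6 : (Wc A B).Δ ∉ P := fun h => h5 (P.mul_mem_left _ h)
    refine ⟨fun h => h5 (P.mul_mem_right _ (P.mul_mem_right _ h)),
      fun h => h5 (P.mul_mem_right _ (P.mul_mem_left _ h)), h6, fun h => ?_⟩
    have h7 := le_norm h1 h2 h3 (Ring.ne_bot_of_isMaximal_of_not_isField h1
      (RingOfIntegers.not_isField K)) le_rfl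
    have h8 := Finset.le_sup (f := Ideal.absNorm) (fin.mem_toFinset.2 ⟨h1, h6, h⟩)
    omega
  obtain ⟨l, hl, l1, l8, res, nonres, seed⟩ := seed_odd hP (modSq_of univ fdComp fdUniq fdTri)
    (seedAlg_of (weber_of absDirichlet)) H hm pp hp hN hu hΔ hA hB hj ha M M0
  have := Fact.mk hl
  have l5 : 5 ≤ l := by omega
  obtain ⟨-, Ψ, hΨ⟩ := univ l hl.ne_zero
  obtain ⟨a, Ψ₁, e1, e2⟩ := kron l Ψ hl l5 hΨ
  have S0 : (X ^ (2 * l + 2) * (X ^ l - X) : (ZMod l)[X]) ≠ 0 :=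
    mul_ne_zero (pow_ne_zero _ X_ne_zero) (FiniteField.X_pow_card_sub_X_ne_zero _ hl.one_lt)
  obtain ⟨F, G, e3, sq⟩ := exists_sqfree (-Ψ₁) (by
    rintro e
    rw [neg_eq_zero.1 e, Polynomial.map_zero] at e2
    exact pow_ne_zero 2 S0 (neg_eq_zero.1 e2.symm))
  have e4 : (G ^ 2 * F).map (Int.castRingHom (ZMod l)) = (X ^ (2 * l + 2) * (X ^ l - X)) ^ 2 := by
    rw [← e3, Polynomial.map_neg, e2, neg_neg]
  have e5 : Ψ = C (-(l : ℤ) ^ a) * (G ^ 2 * F) := by rw [← e3, e1, C_neg]; ring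
  have F0 : F.map (Int.castRingHom (ZMod l)) ≠ 0 := fun e => pow_ne_zero 2 S0 (by
    rw [← e4, Polynomial.map_mul, e, mul_zero])
  have G0 : G ≠ 0 := fun e => pow_ne_zero 2 S0 (by rw [← e4, e]; simp)
  obtain ⟨R, Z, e6⟩ := square_mod hl S0 e4
  obtain ⟨D, D1, D2, D3, D4⟩ : ∃ D, F.natDegree ≤ 2 * D ∧ R.natDegree ≤ D ∧ Z.natDegree ≤ 2 * D ∧
      G.natDegree ≤ D := ⟨F.natDegree + R.natDegree + Z.natDegree + G.natDegree, by omega, by omega,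
    by omega, by omega⟩
  have a0 := ne' hA
  have b0 := ne' hB
  have b2 : iK (B ^ 2) ≠ 0 := by rw [map_pow]; exact pow_ne_zero 2 b0
  obtain ⟨x, hx⟩ := homog_az iK (A ^ 3) (B ^ 2) b2 F D1
  obtain ⟨y, hy⟩ := homog_az iK (A ^ 3) (B ^ 2) b2 R D2
  obtain ⟨z, hz⟩ := homog_az iK (A ^ 3) (B ^ 2) b2 Z D3
  obtain ⟨g, hg⟩ := homog_az iK (A ^ 3) (B ^ 2) b2 G D4
  rw [map_pow iK A, map_pow iK B] at hx hy hz hg
  obtain ⟨O₀, q₀, n₀, c₀⟩ := exists_loc hm hΔ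
  have gd := rd_good c₀.rd
  have e7 := hΨ.az gd a0 b0
  rw [e5, map_mul, map_mul, map_pow, eq_intCast, map_intCast] at e7
  simp only [Finset.prod_mul_distrib, Finset.prod_const] at e7
  set N := (subs (iK A) (iK B) l).card
  have eq : iK (((l : 𝓞 K) ^ a * B ^ (12 * N)) * x * g ^ 2)
      = iK (-((B ^ 2) ^ (4 * D) * ((l : 𝓞 K) ^ 6 * A ^ 12) ^ N))
        * ∏ D ∈ subs (iK A) (iK B) l, dl D := by
    simp only [map_mul, map_pow, map_neg, map_natCast, hx, hg]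
    push_cast at e7
    rw [div_pow, div_pow, ← mul_div_assoc, eq_div_iff (by positivity)] at e7
    linear_combination (-(iK B ^ 2) ^ (4 * D)) * e7
  have us : ∀ P : Ideal (𝓞 K), P.IsMaximal → jacobiSym (-(l : ℤ)) (Ideal.absNorm P) = -1 →
      A ∉ P → B ∉ P → (l : 𝓞 K) ^ a * B ^ (12 * N) ∉ P ∧
        -((B ^ 2) ^ (4 * D) * (l ^ 6 * A ^ 12) ^ N) ∉ P := by
    intro P h1 h2 h3 h4
    have h5 : (l : 𝓞 K) ∉ P := fun h => jacobi_not_dvd hl h2 (dvd_of_mem h1 hl h P.absNorm_mem)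
    have := h1.isPrime
    rw [Ideal.neg_mem_iff]
    exact ⟨P.primeCompl.mul_mem (P.primeCompl.pow_mem h5 _) (P.primeCompl.pow_mem h4 _),
      P.primeCompl.mul_mem (P.primeCompl.pow_mem (P.primeCompl.pow_mem h4 _) _)
        (P.primeCompl.pow_mem (P.primeCompl.mul_mem (P.primeCompl.pow_mem h5 _)
          (P.primeCompl.pow_mem h3 _)) _)⟩
  obtain ⟨u1, u2⟩ := us P₀ hm (hN ▸ nonres) hA hB
  have n0 : (l ^ a * B ^ (12 * N)) * x * g ^ 2 ≠ 0 := fun e => mul_ne_zero (ne' u2)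
    (Finset.prod_ne_zero_iff.2 (H l hl (by omega))) (by rw [← eq, e, map_zero])
  have g0 : g ≠ 0 := by rintro rfl; simp at n0
  have x0 : x ≠ 0 := by rintro rfl; simp at n0
  obtain ⟨P, p1, p2, p3, p4, p5⟩ := globalPar K l hl l8 x y z (iK_inj (by
      rw [map_add, map_mul, map_pow, hx, hy, hz, e6, map_add, map_mul, map_pow, eq_intCast,
        map_intCast, map_natCast, Int.cast_natCast]
      ring)) (fun P h1 h2 h3 => by
      obtain ⟨k1, k2, k3, k4⟩ := M3 P l h1 hl h2 l1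
      obtain ⟨O, q, n, c⟩ := exists_loc h1 k3
      obtain rfl := (Nat.prime_dvd_prime_iff_eq c.prime hl).1 (c.nat_mem.1 h2)
      have v := (c.lt x).2 h3
      rw [hx, map_mul, map_pow, map_pow, c.v_one k2, one_pow, one_pow, one_mul] at v
      have h4 := hd q P hl (by omega) h1 h2 (fun h => k2 (h1.isPrime.mem_of_pow_mem 2 h))
        (c.rat_of_root k1 k2 e4 v)
      rw [c.norm, hl.pow_eq_iff] at h4
      exact k4 (c.at_l hP ssl l5 h4.2 k1 k2 hΨ (neg_ne_zero.2 (pow_ne_zero _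
        (Nat.cast_ne_zero.2 hl.ne_zero))) e5 G0 F0 sq v))
    P₀ hm (by rw [hN, Nat.odd_iff]; omega) (hN ▸ nonres) (seed _ _ x g u1 u2 x0 g0 eq)
  obtain ⟨q, n, q1, q2, q3⟩ := exists_char p1
  obtain ⟨q5, k1, k2, k3, k4⟩ : 5 ≤ q ∧ A ∉ P ∧ B ∉ P ∧ (Wc A B).Δ ∉ P ∧ aP A B P ≠ 0 := by
    by_cases h : q = p
    · subst h
      exact ⟨by have := pp.two_le; omega, ho P p1 q2 p2⟩
    rw [q3] at p3 p4
    obtain ⟨j1, j2⟩ := jacobi_pow p4
    have h1 : M < q := lt_of_not_ge fun h1 => by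
      rw [res q q1 h1 (by
        rintro rfl
        exact absurd (Nat.odd_pow_iff j1.pos.ne' |>.1 p3) (by decide)) h] at j2
      omega
    exact ⟨by omega, M3 P q p1 q1 q2 h1⟩
  obtain ⟨O, q', n', c⟩ := exists_loc p1 k3
  obtain rfl := (Nat.prime_dvd_prime_iff_eq c.prime q1).1 (c.nat_mem.1 q2)
  have := Fact.mk q1
  have := c.char
  obtain ⟨v1, v2⟩ := us P p1 p4 k1 k2
  exact k4 (odd_zero c hP q5 k1 k2 (H l hl (by omega)) hl (by omega) p4 v1 v2 g0 eq p5)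

end SeedL

theorem seed : SeedStmt := by
  intro K _ _ _ A B M H hK P₀ p hm pp hp hN hu hΔ hA hB hj ha ho
  classical
  exact SeedL.main H hK hm pp hp hN hu hΔ hA hB hj ha ho

end Pool.Agent.MP_c481b3_nt.H40
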