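import Pool.Agent.MP_c481b3_nt.H81.Basic

/-! Statements of the elementary steps for the theorem on almost all curves. -/

set_option autoImplicit false

namespace Pool.Agent.MP_c481b3_nt.H40

open Pool.Agent.MP_c481b3_nt.H81 NumberField Filter

section sets
variable (F : Type) [CommRing F]

/-- the cubic has no root -/
def SetG : Set (F × F) := {x | x.1 ≠ 0 ∧ ∀ y : F, y ^ 3 + x.1 * y + x.2 ≠ 0}

/-- the cubic has a node -/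
def SetM : Set (F × F) := {x | x.1 ≠ 0 ∧ 4 * x.1 ^ 3 + 27 * x.2 ^ 2 = 0}

/-- the curve has trace zero and a generic invariant -/
def SetS : Set (F × F) := {x | x.1 ≠ 0 ∧ x.2 ≠ 0 ∧ 392 * x.1 ^ 3 + 3375 * x.2 ^ 2 ≠ 0 ∧
  4 * x.1 ^ 3 + 27 * x.2 ^ 2 ≠ 0 ∧ Nat.card (Wc x.1 x.2).toAffine.Point = Nat.card F + 1}

end sets

/-- counting cubics over a finite field -/
def NoRootStmt : Prop :=
  ∀ (F : Type) [Field F] [Finite F], (2 : F) ≠ 0 → (3 : F) ≠ 0 →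
    (16 ≤ Nat.card F → Nat.card F ^ 2 ≤ 4 * (SetG F).ncard) ∧
    Nat.card F ≤ (SetM F).ncard + 1 ∧
    ∀ x ∈ SetG F, x.2 ≠ 0 ∧ 4 * x.1 ^ 3 + 27 * x.2 ^ 2 ≠ 0 ∧
      Odd (Nat.card (Wc x.1 x.2).toAffine.Point)

/-- an element with a simple pole at exactly one prime of degree one generates the field -/
def GenStmt : Prop :=
  ∀ (K : Type) [Field K] [NumberField K] (a b : 𝓞 K) (q : ℕ) (P₀ : Ideal (𝓞 K)), q.Prime →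
    P₀.IsMaximal → Ideal.absNorm P₀ = q → (q : 𝓞 K) ∉ P₀ ^ 2 → 4 * a + 27 * b ∈ P₀ → b ∉ P₀ →
    (∀ P : Ideal (𝓞 K), P.IsMaximal → (q : 𝓞 K) ∈ P → P ≠ P₀ → b ∉ P ∧ 4 * a + 27 * b ∉ P) →
    IntermediateField.adjoin ℚ {(a : K) / (b : K)} = ⊤

/-- the pairs of integers of bounded size -/
def Box (K : Type) [Field K] [NumberField K] (T : ℝ × ℝ) : Set (𝓞 K × 𝓞 K) :=
  {x | house (x.1 : K) ≤ T.1 ∧ house (x.2 : K) ≤ T.2}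

/-- the reduction of a pair -/
def rd {R : Type} [CommRing R] (P : Ideal R) (x : R × R) : (R ⧸ P) × (R ⧸ P) :=
  (Ideal.Quotient.mk P x.1, Ideal.Quotient.mk P x.2)

/-- passing from residue classes to boxes -/
def BoxStmt : Prop :=
  ∀ (K : Type) [Field K] [NumberField K],
    (∀ T, (Box K T).Finite) ∧ (∀ T : ℝ × ℝ, 0 ≤ T.1 → 0 ≤ T.2 → (Box K T).Nonempty) ∧
    ∀ (G : Type) [Fintype G] (s : G → 𝓞 K × 𝓞 K) (E : Set (𝓞 K × 𝓞 K)) (η : ℝ), Nonempty G →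
      (∀ x, ({g | x + s g ∈ E}.ncard : ℝ) ≤ η * Fintype.card G) →
      ∀ᶠ T : ℝ × ℝ in atTop ×ˢ atTop,
        ((Box K T ∩ E).ncard : ℝ) ≤ 16 ^ Module.finrank ℚ K * η * (Box K T).ncard

/-- independence of local conditions -/
def CrtStmt : Prop :=
  ∀ (K : Type) [Field K] [NumberField K] (Q : Finset ℕ) (pr : ℕ → Finset (Ideal (𝓞 K)))
    (L : ℕ → (P : Ideal (𝓞 K)) → Set ((𝓞 K ⧸ P) × (𝓞 K ⧸ P))) (δ : ℕ → ℝ),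
    (∀ q ∈ Q, ∀ P ∈ pr q, P.IsMaximal) →
    (∀ q ∈ Q, ∀ q' ∈ Q, q ≠ q' → Disjoint (pr q) (pr q')) →
    (∀ q ∈ Q, δ q ≤ ∏ P ∈ pr q, ((L q P).ncard : ℝ) / (Ideal.absNorm P : ℝ) ^ 2) →
    ∃ (G : Type) (_ : Fintype G) (s : G → 𝓞 K × 𝓞 K), Nonempty G ∧ ∀ x,
      ({g | ∀ q ∈ Q, ∃ P ∈ pr q, rd P (x + s g) ∉ L q P}.ncard : ℝ) ≤
        Real.exp (-∑ q ∈ Q, δ q) * Fintype.card G

/-- many primes of degree one -/
def DivStmt : Prop :=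
  ∀ (K : Type) [Field K] [NumberField K],
    (∀ q : ℕ, q.Prime → ∃ S : Finset (Ideal (𝓞 K)), S.card ≤ Module.finrank ℚ K ∧
      ∀ P, P ∈ S ↔ P.IsMaximal ∧ (q : 𝓞 K) ∈ P) ∧
    ∀ (C : ℝ) (M : ℕ), ∃ Q : Finset ℕ, C ≤ ∑ q ∈ Q, 1 / (q : ℝ) ∧ ∀ q ∈ Q, q.Prime ∧ M < q ∧
      q % 4 = 1 ∧ ∃ P₀ : Ideal (𝓞 K), P₀.IsMaximal ∧ Ideal.absNorm P₀ = q ∧
        (q : 𝓞 K) ∉ P₀ ^ 2 ∧ ∃ z : 𝓞 K ⧸ P₀, z ^ 8 - z ^ 4 + 1 = 0

/-- curves of trace zero over the prime field -/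
def SsStmt : Prop :=
  ∀ (F : Type) [Field F] [Finite F] (q : ℕ), q.Prime → 5 ≤ q → q % 4 = 1 → Nat.card F = q →
    (∃ z : F, z ^ 8 - z ^ 4 + 1 = 0) → q ≤ (SetS F).ncard + 1

end Pool.Agent.MP_c481b3_nt.H40
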