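import Pool.Agent.MP_c481b3_nt.H40.SpecA
import Pool.Agent.MP_c481b3_nt.H28.Loc

/-! Statements of the geometric steps for the theorem on almost all curves. -/

set_option autoImplicit false

namespace Pool.Agent.MP_c481b3_nt.H40

open Pool.Agent.MP_c481b3_nt.H81 Pool.Agent.MP_c481b3_nt.H28 NumberField

/-- no quotient of large prime degree has the invariant of the curve -/
def NoSelf {k : Type} [Field k] [DecidableEq k] (A B : k) (M : ℕ) : Prop :=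
  ∀ l : ℕ, l.Prime → M < l → ∀ D ∈ subs A B l, dl D ≠ 0

open Classical in
/-- a prime of multiplicative reduction excludes such quotients -/
def MultStmt : Prop :=
  ∀ (K : Type) [Field K] [NumberField K] (A B : 𝓞 K) (P : Ideal (𝓞 K)) (p : ℕ), P.IsMaximal →
    p.Prime → 5 ≤ p → (p : 𝓞 K) ∈ P → A ∉ P → 4 * A ^ 3 + 27 * B ^ 2 ∈ P →
    4 * A ^ 3 + 27 * B ^ 2 ≠ 0 → NoSelf (iK A) (iK B) p

open Classical in
/-- one seed gives infinitely many primes of trace zero -/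
def SeedStmt : Prop :=
  ∀ (K : Type) [Field K] [NumberField K] [IsTotallyComplex K] (A B : 𝓞 K) (M : ℕ),
    NoSelf (iK A) (iK B) M →
    IntermediateField.adjoin ℚ {((A ^ 3 : 𝓞 K) : K) / ((B ^ 2 : 𝓞 K) : K)} = ⊤ →
    ∀ (P₀ : Ideal (𝓞 K)) (p : ℕ), P₀.IsMaximal → p.Prime → p % 4 = 1 → Ideal.absNorm P₀ = p →
    (p : 𝓞 K) ∉ P₀ ^ 2 → (Wc A B).Δ ∉ P₀ → A ∉ P₀ → B ∉ P₀ → 392 * A ^ 3 + 3375 * B ^ 2 ∉ P₀ →
    aP A B P₀ = 0 →
    (∀ P : Ideal (𝓞 K), P.IsMaximal → (p : 𝓞 K) ∈ P → P ≠ P₀ →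
      A ∉ P ∧ B ∉ P ∧ (Wc A B).Δ ∉ P ∧ aP A B P ≠ 0) →
    {P : Ideal (𝓞 K) | P.IsMaximal ∧ (Wc A B).Δ ∉ P ∧ aP A B P = 0}.Infinite

end Pool.Agent.MP_c481b3_nt.H40
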