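import Pool.Agent.MP_c481b3_nt.H40.SpecA
import Pool.Agent.MP_c481b3_nt.H31F.All
import Pool.Agent.MP_c481b3_nt.H31F.U2
import Pool.Agent.MP_c481b3_nt.H31F.U3
import Pool.Agent.MP_c481b3_nt.H31F.K4
import Pool.Agent.MP_c481b3_nt.H31F.Intj
import Pool.Agent.MP_c481b3_nt.H31F.Can1
import Pool.Agent.MP_c481b3_nt.H31F.Vls
import Pool.Agent.MP_c481b3_nt.H28.Kron
import Pool.Agent.MP_c481b3_nt.H28.SeedC
import Pool.Agent.MP_c481b3_nt.H28.BaseD
import Pool.Agent.MP_c481b3_nt.H28.FFa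

/-! A curve of trace zero over the prime field. -/

set_option autoImplicit false

namespace Pool.Agent.MP_c481b3_nt.H40

open Pool.Agent.MP_c481b3_nt.H81 Pool.Agent.MP_c481b3_nt.H28 IsLocalRing

namespace SsAux

/-- the singular modulus of discriminant `-4 q` -/
lemma cm_pt {q : ℕ} (hq : q.Prime) (h4 : q % 4 = 1) (O : ValuationSubring ℂ)
    (hv : O.valuation (q : ℂ) < 1) : ∃ A B : ℂ, 4 * A ^ 3 + 27 * B ^ 2 = 1 ∧ CMv q A B ∧
      jj A B ∈ O ∧ O.valuation ((jj A B - jj A B ^ q) ^ 2) < 1 := by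
  have h3 : ¬q % 4 = 3 := by omega
  obtain ⟨Q, -, d, a, n⟩ := H31F.b2.mat.cm q 1 0 1 hq.pos (by simp) (Or.inr one_ne_zero)
  rw [H31F.act_one] at a n
  have d' : Q.det = q := by simpa [H31F.tt, H31F.nn, h3] using d
  have n' : H31F.den Q (H31F.om q) ^ 2 = -q := by
    rw [n, H31F.coe_om hq.pos, if_neg h3, ← H31F.sq_sq]; simp
  obtain ⟨A₀, B₀, G, e, cm⟩ := H31F.u3_of H31F.b2.y1 H31F.u1 H31F.u2 _ Q q hq.pos d' a n'
  have hi := (H31F.intj_of H31F.b2 H31F.vls q 1 hq.one_lt hq.squarefree (by simp)).2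
  rw [H31F.act_one] at hi
  have m := cg_mem_of_integral O hi
  have v := ((H31F.can1_of H31F.b2 O q hq hv).1 _ Q m d').2.2.1
  rw [a, ← e] at v
  rw [← e] at m
  obtain ⟨A, hA⟩ := IsAlgClosed.exists_pow_nat_eq (jj A₀ B₀ / 6912) three_pos
  obtain ⟨B, hB⟩ := IsAlgClosed.exists_pow_nat_eq ((1 - 4 * A ^ 3) / 27) two_pos
  have h1 : 4 * A ^ 3 + 27 * B ^ 2 = 1 := by rw [hB]; ring
  have h2 : jj A B = jj A₀ B₀ := by rw [jj, h1, hA]; ring
  have G' : Good A B := ⟨two_ne_zero, h1 ▸ one_ne_zero⟩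
  refine ⟨A, B, h1, cm.iso G' (jj_eq three_ne_zero G G' h2.symm), h2 ▸ m, ?_⟩
  rw [h2, ← Valuation.map_neg]
  convert v using 2
  ring

/-- a curve without points of order `q` whose invariant lies in the prime field -/
lemma ss_pt {q : ℕ} (hq : q.Prime) (h5 : 5 ≤ q) (h4 : q % 4 = 1) (O : ValuationSubring ℂ)
    (hv : O.valuation (q : ℂ) < 1) [DecidableEq (ResidueField O)] :
    ∃ A B : ResidueField O, Good A B ∧ (∀ Q : Pt A B, q • Q = 0 → Q = 0) ∧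
      jj A B ^ q = jj A B := by
  have := res_charP hq hv
  have := resid_closed O
  obtain ⟨h2, h3⟩ := small_ne (ResidueField O) h5
  obtain ⟨A, B, h1, ⟨D, u, d, c, e⟩, m, v⟩ := cm_pt hq h4 O hv
  obtain ⟨A', B', r⟩ := rd_of_disc (π := resPlc O) h2 h3 h1 m
  refine ⟨A', B', r.good, ssl _ _ (resPlc O) A B A' B' r residue_surjective q hq h5
    (CharP.cast_eq_zero _ q) D u d c e, ?_⟩
  have j := ev_jj (rdA r) (rdB r) r.good
  have z := ((j.sub (j.pow q)).pow 2).unique (Ev.of_lt (π := resPlc O) v)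
  exact (sub_eq_zero.1 (pow_eq_zero_iff two_ne_zero |>.1 z)).symm

section key
variable {k : Type} [Field k] [DecidableEq k] [IsAlgClosed k] [DecidableEq (RatFunc k)]
  [DecidableEq (LL k)] {q : ℕ} [Fact q.Prime] [CharP k q]

/-- no points of order `q` means trace zero -/
lemma tr_zero (h5 : 5 ≤ q) {A B : k} (hG : Good A B) (hA : A ^ q ^ 1 = A) (hB : B ^ q ^ 1 = B)
    (ss : ∀ Q : Pt A B, q • Q = 0 → Q = 0) : pol NE (frE hG q 1 hA hB) 1 = 0 := by
  have h3 := (small_ne k h5).2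
  have cr := compRing h3 hG
  set π := frE hG q 1 hA hB with hπ
  obtain ⟨t, tr⟩ : ∃ t, pol NE π 1 = t := ⟨_, rfl⟩
  have nπ : NE π = q := by rw [hπ, NE_frE, pow_one]
  have dv : (q : ℤ) ∣ t := by
    by_contra hc
    obtain ⟨E, d', e1, -⟩ := exists_vd h3 (π - ((t : ℤ) : EE hG)) (by
      rw [map_sub, cE_frE _ _ _ _ _ one_ne_zero, map_intCast, zero_sub, neg_ne_zero, Ne,
        CharP.intCast_eq_zero_iff _ q]
      exact hc)
    rw [cr.sub, nπ, ← mul_one (t : EE hG), cr.pol_int', tr, mul_one, cr.int] at e1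
    have e2 : E.card = q := by
      have : (E.card : ℤ) = q := by rw [e1]; ring
      exact_mod_cast this
    obtain ⟨Q, hQ⟩ : (E.erase 0).Nonempty := Finset.card_pos.1 (by
      rw [Finset.card_erase_of_mem d'.sub.zero, e2]; omega)
    obtain ⟨q0, q1⟩ := Finset.mem_erase.1 hQ
    exact q0 (ss _ (by rw [← e2, d'.sub.nsmul_card q1]))
  have cs := cr.cauchy π 1
  rw [tr, nπ, cr.one] at cs
  obtain ⟨z, hz⟩ := dv
  have l5 : (5 : ℤ) ≤ q := by exact_mod_cast h5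
  rw [tr]
  rw [hz] at cs ⊢
  by_contra h0
  have : 1 ≤ z ^ 2 := by
    have := sq_pos_of_ne_zero (right_ne_zero_of_mul h0)
    omega
  nlinarith [mul_le_mul_of_nonneg_left this (sq_nonneg (q : ℤ))]

lemma key (h5 : 5 ≤ q) (h4 : q % 4 = 1) {F : Type} [Field F] [Fintype F]
    (hF : Fintype.card F = q) (i : F →+* k) {A B : k} (hG : Good A B)
    (ss : ∀ Q : Pt A B, q • Q = 0 → Q = 0) {c : F} (hc : i c = jj A B) {a b : F}
    (h0 : 4 * a ^ 3 + 27 * b ^ 2 ≠ 0) (hj : jj a b = c) :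
    Nat.card (Wc a b).toAffine.Point = q + 1 ∧ ∀ δ : F, δ ^ 2 ≠ -(4 * a ^ 3 + 27 * b ^ 2) := by
  obtain ⟨h2, h3⟩ := small_ne k h5
  have fx : ∀ x : F, i x ^ q = i x := fun x => by rw [← map_pow, ← hF, FiniteField.pow_card]
  have G : Good (i a) (i b) := ⟨h2, fun e => h0 (i.injective (by
    rw [map_zero, ← e]; simp [map_ofNat]))⟩
  obtain ⟨f, hf⟩ := is_iso h3 G hG (jj_eq h3 G hG (by rw [← jj_map, hj, hc]))
  have hA : i a ^ q ^ 1 = i a := by rw [pow_one, fx]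
  have hB : i b ^ q ^ 1 = i b := by rw [pow_one, fx]
  have t := tr_zero h5 G hA hB fun Q hQ => by
    simpa using hf.ker (ss (f Q) (by rw [← map_nsmul, hQ, map_zero]))
  refine ⟨?_, fun δ e => (seedLoc k q h5 _ _ (i δ) G hA hB (fx δ) (by
    rw [← map_pow, e]; simp [map_ofNat]) 0 t).1 h4 (dvd_zero _)⟩
  have n := card_fixed i rfl rfl G
  rw [tr_frE G q 1 hA hB one_ne_zero h3, pow_one, pow_one, ← hF, n, hF] at t
  have : (Nat.card (Pt a b) : ℤ) = q + 1 := by linarith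
  exact_mod_cast this

end key

lemma fin {F : Type} [Field F] [Fintype F] {q : ℕ} (hF : Fintype.card F = q) (h2 : (2 : F) ≠ 0)
    (h3 : (3 : F) ≠ 0) (h7 : (7 : F) ≠ 0) {z : F} (hz : z ^ 8 - z ^ 4 + 1 = 0) {c : F}
    (H : ∀ a b : F, 4 * a ^ 3 + 27 * b ^ 2 ≠ 0 → jj a b = c →
      Nat.card (Wc a b).toAffine.Point = q + 1 ∧ ∀ δ : F, δ ^ 2 ≠ -(4 * a ^ 3 + 27 * b ^ 2)) :
    q ≤ (SetS F).ncard + 1 := by
  classical
  have n27 : (27 : F) ≠ 0 := by convert pow_ne_zero 3 h3 using 1; norm_num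
  have n4 : (4 : F) ≠ 0 := by convert pow_ne_zero 2 h2 using 1; norm_num
  have c0 : c ≠ 0 := fun e => (H 0 1 (by simpa using n27) (by simp [jj, e])).2
    (3 * (2 * z ^ 4 - 1)) (by linear_combination 36 * hz)
  have c1 : 1728 - c ≠ 0 := fun e => (H 1 0 (by simpa using n4) (by
      rw [jj, ← sub_eq_zero.1 e, div_eq_iff (by simpa using n4)]; norm_num)).2
    (2 * z ^ 6) (by linear_combination 4 * (z ^ 4 + 1) * hz)
  obtain ⟨a, ha⟩ : ∃ a, a = 3 * c * (1728 - c) := ⟨_, rfl⟩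
  obtain ⟨b, hb⟩ : ∃ b, b = 2 * c * (1728 - c) ^ 2 := ⟨_, rfl⟩
  have a0 : a ≠ 0 := ha ▸ mul_ne_zero (mul_ne_zero h3 c0) c1
  have b0 : b ≠ 0 := hb ▸ mul_ne_zero (mul_ne_zero h2 c0) (pow_ne_zero 2 c1)
  have e : 4 * a ^ 3 + 27 * b ^ 2 = 2 ^ 8 * 3 ^ 6 * c ^ 2 * (1728 - c) ^ 3 := by
    rw [ha, hb]; ring
  have d0 : 4 * a ^ 3 + 27 * b ^ 2 ≠ 0 := e ▸ mul_ne_zero (mul_ne_zero
    (mul_ne_zero (pow_ne_zero 8 h2) (pow_ne_zero 6 h3)) (pow_ne_zero 2 c0)) (pow_ne_zero 3 c1)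
  have j : 6912 * a ^ 3 = c * (4 * a ^ 3 + 27 * b ^ 2) := by rw [e, ha]; ring
  have s2 : (z ^ 3 - z ^ 9) ^ 2 = 2 := by
    linear_combination (z ^ 6 - 2) * (z ^ 4 + 1) * hz
  have s0 : z ^ 3 - z ^ 9 ≠ 0 := fun h => h2 (by rw [← s2, h]; simp)
  have g : 392 * a ^ 3 + 3375 * b ^ 2 ≠ 0 := fun h =>
    (H a b d0 (by rw [jj, j, mul_div_cancel_right₀ _ d0])).2 (27 * b / (7 * (z ^ 3 - z ^ 9))) (by
      rw [div_pow, mul_pow 7, s2, div_eq_iff (mul_ne_zero (pow_ne_zero 2 h7) h2)]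
      linear_combination h)
  have inj : Set.InjOn (fun t : F => (a * t ^ 2, b * t ^ 3)) {0}ᶜ := fun t ht s _ h => by
    have e1 := mul_left_cancel₀ a0 (congrArg Prod.fst h)
    have e2 := mul_left_cancel₀ b0 (congrArg Prod.snd h)
    exact mul_left_cancel₀ (pow_ne_zero 2 ht) (by linear_combination e2 - s * e1)
  have sub : (fun t : F => (a * t ^ 2, b * t ^ 3)) '' {0}ᶜ ⊆ SetS F := by
    rintro _ ⟨t, ht, rfl⟩
    have t6 := pow_ne_zero 6 (show t ≠ 0 from ht)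
    have d1 : 4 * (a * t ^ 2) ^ 3 + 27 * (b * t ^ 3) ^ 2 ≠ 0 := by
      convert mul_ne_zero d0 t6 using 1; ring
    refine ⟨mul_ne_zero a0 (pow_ne_zero 2 ht), mul_ne_zero b0 (pow_ne_zero 3 ht), ?_, d1, ?_⟩
    · convert mul_ne_zero g t6 using 1; ring
    · rw [Nat.card_eq_fintype_card (α := F), hF]
      exact (H _ _ d1 (by rw [jj, div_eq_iff d1]; linear_combination t ^ 6 * j)).1
  have l := Set.ncard_le_ncard sub
  rw [inj.ncard_image] at l
  have n := Set.ncard_add_ncard_compl ({0} : Set F)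
  rw [Set.ncard_singleton, Nat.card_eq_fintype_card, hF] at n
  omega

end SsAux

theorem ss : SsStmt := by
  intro F _ _ q hq h5 h4 hF ⟨z, hz⟩
  classical
  have := Fintype.ofFinite F
  have : Fact q.Prime := ⟨hq⟩
  rw [Nat.card_eq_fintype_card] at hF
  obtain ⟨O, hv⟩ := H31F.vls.val q hq
  have := res_charP hq hv
  have := resid_closed O
  obtain ⟨A, B, G, s, j⟩ := SsAux.ss_pt hq h5 h4 O hv
  have e : ZMod q ≃+* F := ZMod.ringEquivOfPrime F hq hF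
  have : CharP F q := charP_of_injective_ringHom (f := e.toRingHom) e.injective q
  let i : F →+* ResidueField O := (ZMod.castHom (dvd_refl q) _).comp e.symm.toRingHom
  obtain ⟨c, hc⟩ : ∃ c, i c = jj A B := by
    refine (Polynomial.splits_iff_card_roots.2 ?_ :
      (Polynomial.X ^ Fintype.card F - Polynomial.X : Polynomial F).Splits).mem_range_of_isRoot
      (FiniteField.X_pow_card_sub_X_ne_zero F Fintype.one_lt_card) (by simp [hF, j])
    rw [FiniteField.roots_X_pow_card_sub_X,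
      FiniteField.X_pow_card_sub_X_natDegree_eq F Fintype.one_lt_card]
    rfl
  obtain ⟨h2, h3⟩ := small_ne F h5
  refine SsAux.fin hF h2 h3 (fun h => ?_) hz fun a b => SsAux.key h5 h4 hF i G s hc
  have := (Nat.prime_dvd_prime_iff_eq hq (by norm_num : Nat.Prime 7)).1
    ((CharP.cast_eq_zero_iff F q 7).1 (by simpa using h))
  omega

end Pool.Agent.MP_c481b3_nt.H40
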